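import Mathlib

/-!
# Brownian motion in an interval: cosine moments
-/

set_option autoImplicit false

namespace Pool.Agent.Q333.Exit

open Filter Topology Set MeasureTheory ProbabilityTheory
open scoped NNReal ENNReal

/-- a dense sequence of times -/
noncomputable def u : ℕ → ℝ≥0 := TopologicalSpace.denseSeq ℝ≥0

/-- The path stays in a smaller interval at the times `u n ≤ t`. -/
def Good (a : ℝ) (t : ℝ≥0) (x : ℝ≥0 → ℝ) : Prop :=
  ∃ m : ℕ, ∀ n : ℕ, u n ≤ t → |x (u n)| ≤ a * (1 - 1 / ((m : ℝ) + 1))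

theorem good_iff {a : ℝ} (ha : 0 < a) {x : ℝ≥0 → ℝ} (hx : Continuous x) (h0 : x 0 = 0)
    (t : ℝ≥0) : Good a t x ↔ ∀ s ≤ t, |x s| < a := by
  constructor
  · rintro ⟨m, hm⟩ s hs
    have hlt : a * (1 - 1 / ((m : ℝ) + 1)) < a := by
      have : 0 < 1 / ((m : ℝ) + 1) := by positivity
      nlinarith
    rcases eq_or_ne t 0 with rfl | ht
    · have : s = 0 := le_antisymm hs zero_le
      rw [this, h0, abs_zero]
      exact ha
    · have h1 : Iio t ⊆ closure (Iio t ∩ range u) :=
        (TopologicalSpace.denseRange_denseSeq ℝ≥0).open_subset_closure_inter isOpen_Iio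
      have h2 : Iic t ⊆ closure (Iio t ∩ range u) := by
        rw [← closure_Iio' ⟨0, pos_iff_ne_zero.2 ht⟩]
        exact closure_minimal h1 isClosed_closure
      have h3 : closure (Iio t ∩ range u) ⊆ {s | |x s| ≤ a * (1 - 1 / ((m : ℝ) + 1))} := by
        apply closure_minimal
        · rintro r ⟨hr, n, rfl⟩
          exact hm n (le_of_lt hr)
        · exact isClosed_le (continuous_abs.comp hx) continuous_const
      exact lt_of_le_of_lt (h3 (h2 hs)) hlt
  · intro h
    have hc : IsCompact (Icc 0 t : Set ℝ≥0) := isCompact_Icc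
    obtain ⟨s, hs, hmax⟩ := hc.exists_isMaxOn ⟨0, le_refl _, zero_le⟩
      ((continuous_abs.comp hx).continuousOn)
    have h1 : |x s| < a := h s hs.2
    obtain ⟨m, hm⟩ := exists_nat_gt (a / (a - |x s|))
    refine ⟨m, fun n hn => (hmax ⟨zero_le, hn⟩).trans ?_⟩
    have h2 : 0 < a - |x s| := by linarith
    have h3 : a < m * (a - |x s|) := (div_lt_iff₀ h2).1 hm
    have h4 : a * (1 / ((m : ℝ) + 1)) ≤ a - |x s| := by
      rw [mul_one_div, div_le_iff₀ (by positivity)]
      nlinarith
    show |x s| ≤ a * (1 - 1 / ((m : ℝ) + 1))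
    rw [mul_sub, mul_one]
    linarith

/-- the same for functions on `[0, t]` -/
def GoodI (a : ℝ) (t : ℝ≥0) (y : Iic t → ℝ) : Prop :=
  ∃ m : ℕ, ∀ n : ℕ, ∀ h : u n ≤ t, |y ⟨u n, h⟩| ≤ a * (1 - 1 / ((m : ℝ) + 1))

theorem measurable_goodI (a : ℝ) (t : ℝ≥0) : MeasurableSet {y : Iic t → ℝ | GoodI a t y} := by
  unfold GoodI
  rw [ofPred_exists]
  refine MeasurableSet.iUnion fun m => ?_
  rw [ofPred_forall]
  refine MeasurableSet.iInter fun n => ?_
  rw [ofPred_forall]
  refine MeasurableSet.iInter fun h => ?_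
  exact measurableSet_le (by fun_prop) measurable_const

section gauss

theorem gauss_int (v : ℝ≥0) (m : ℝ) :
    ∫ x, Complex.exp (m * x * Complex.I) ∂(gaussianReal 0 v) =
      (Real.exp (-(v * m ^ 2 / 2)) : ℝ) := by
  rw [← charFun_apply_real, charFun_gaussianReal]
  push_cast
  congr 1
  ring

theorem gauss_cos (v : ℝ≥0) (m : ℝ) :
    ∫ x, Real.cos (m * x) ∂(gaussianReal 0 v) = Real.exp (-(v * m ^ 2 / 2)) := by
  have h := congrArg Complex.re (gauss_int v m)
  rw [Complex.ofReal_re] at h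
  rw [← h]
  have hi : Integrable (fun x : ℝ => Complex.exp (m * x * Complex.I)) (gaussianReal 0 v) := by
    apply (integrable_const (1 : ℝ)).mono' (by fun_prop)
    refine Eventually.of_forall fun x => ?_
    rw [show (m : ℂ) * x * Complex.I = ((m * x : ℝ) : ℂ) * Complex.I by push_cast; ring,
      Complex.norm_exp_ofReal_mul_I]
  have h2 := integral_re hi
  simp only [RCLike.re_to_complex] at h2
  rw [← h2]
  congr 1
  funext x
  rw [show (m : ℂ) * x * Complex.I = ((m * x : ℝ) : ℂ) * Complex.I by push_cast; ring,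
    Complex.exp_ofReal_mul_I_re]

theorem gauss_sin (v : ℝ≥0) (m : ℝ) :
    ∫ x, Real.sin (m * x) ∂(gaussianReal 0 v) = 0 := by
  have h := congrArg Complex.im (gauss_int v m)
  rw [Complex.ofReal_im] at h
  have hi : Integrable (fun x : ℝ => Complex.exp (m * x * Complex.I)) (gaussianReal 0 v) := by
    apply (integrable_const (1 : ℝ)).mono' (by fun_prop)
    refine Eventually.of_forall fun x => ?_
    rw [show (m : ℂ) * x * Complex.I = ((m * x : ℝ) : ℂ) * Complex.I by push_cast; ring,
      Complex.norm_exp_ofReal_mul_I]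
  have h2 := integral_im hi
  simp only [RCLike.im_to_complex] at h2
  refine Eq.trans ?_ (h2.trans h)
  congr 1
  funext x
  rw [show (m : ℂ) * x * Complex.I = ((m * x : ℝ) : ℂ) * Complex.I by push_cast; ring,
    Complex.exp_ofReal_mul_I_im]

end gauss

section step

variable {Ω : Type*} {mΩ : MeasurableSpace Ω} {P : Measure Ω} {B : ℝ≥0 → Ω → ℝ}

/-- the event that the path stays in `(-a, a)` up to time `t` -/
def Ev (B : ℝ≥0 → Ω → ℝ) (a : ℝ) (t : ℝ≥0) : Set Ω := {ω | Good a t (B · ω)}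

theorem nullMeas_Ev (hB : IsPreBrownianReal B P) (a : ℝ) (t : ℝ≥0) :
    NullMeasurableSet (Ev B a t) P := by
  unfold Ev Good
  rw [ofPred_exists]
  refine NullMeasurableSet.iUnion fun m => ?_
  rw [ofPred_forall]
  refine NullMeasurableSet.iInter fun n => ?_
  rw [ofPred_forall]
  refine NullMeasurableSet.iInter fun h => ?_
  exact nullMeasurableSet_le (hB.aemeasurable (u n)).abs aemeasurable_const

/-- indicator of the event -/
noncomputable def ind (B : ℝ≥0 → Ω → ℝ) (a : ℝ) (t : ℝ≥0) (ω : Ω) : ℝ :=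
  (Ev B a t).indicator (fun _ => (1 : ℝ)) ω

theorem ind_nonneg (a : ℝ) (t : ℝ≥0) (ω : Ω) : 0 ≤ ind B a t ω :=
  indicator_nonneg (fun _ _ => zero_le_one) _

theorem ind_le (a : ℝ) (t : ℝ≥0) (ω : Ω) : ind B a t ω ≤ 1 :=
  indicator_le_self' (fun _ _ => zero_le_one) _

theorem aesm_ind (hB : IsPreBrownianReal B P) (a : ℝ) (t : ℝ≥0) :
    AEStronglyMeasurable (ind B a t) P :=
  aestronglyMeasurable_const.indicator₀ (nullMeas_Ev hB a t)

theorem integrable_bdd [IsProbabilityMeasure P] {g : Ω → ℝ} (hg : AEStronglyMeasurable g P)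
    (h : ∀ ω, |g ω| ≤ 1) : Integrable g P :=
  (integrable_const (1 : ℝ)).mono' hg (Eventually.of_forall fun ω => by
    rw [Real.norm_eq_abs]; exact h ω)

theorem indep_step [IsProbabilityMeasure P] (hB : IsPreBrownianReal B P) (a : ℝ) (t δ : ℝ≥0)
    {g h : ℝ → ℝ} (hg : Measurable g) (hh : Measurable h) :
    ∫ ω, h (B (t + δ) ω - B t ω) * (g (B t ω) * ind B a t ω) ∂P =
      (∫ x, h x ∂(gaussianReal 0 δ)) * ∫ ω, g (B t ω) * ind B a t ω ∂P := by
  have h1 := hB.indepFun_shift t
  have h2 : Measurable (fun y : Iic t → ℝ => g (y ⟨t, le_refl t⟩) *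
      {y : Iic t → ℝ | GoodI a t y}.indicator (fun _ => (1 : ℝ)) y) :=
    (hg.comp (measurable_pi_apply _)).mul (measurable_const.indicator (measurable_goodI a t))
  have h3 : Measurable (fun z : ℝ≥0 → ℝ => h (z δ)) := hh.comp (measurable_pi_apply _)
  have h4 := h1.comp h3 h2
  have h5 : ((fun y : Iic t → ℝ => g (y ⟨t, le_refl t⟩) *
      {y : Iic t → ℝ | GoodI a t y}.indicator (fun _ => (1 : ℝ)) y) ∘
      fun ω (s : Iic t) => B s ω) = fun ω => g (B t ω) * ind B a t ω := by
    funext ω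
    rfl
  have h6 : ((fun z : ℝ≥0 → ℝ => h (z δ)) ∘ fun ω s => B (t + s) ω - B t ω) =
      fun ω => h (B (t + δ) ω - B t ω) := by
    funext ω
    simp only [Function.comp_apply]
  rw [h5, h6] at h4
  have hlaw := (hB.shift t).hasLaw_eval δ
  rw [h4.integral_fun_mul_eq_mul_integral
    (hh.comp_aemeasurable hlaw.aemeasurable).aestronglyMeasurable
    ((hg.comp_aemeasurable (hB.aemeasurable t)).aestronglyMeasurable.mul (aesm_ind hB a t))]
  congr 1
  have := hlaw.integral_comp (f := h) hh.aestronglyMeasurable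
  exact this

theorem step [IsProbabilityMeasure P] (hB : IsPreBrownianReal B P) (a m : ℝ) (t δ : ℝ≥0) :
    ∫ ω, Real.cos (m * B (t + δ) ω) * ind B a t ω ∂P =
      Real.exp (-(δ * m ^ 2 / 2)) * ∫ ω, Real.cos (m * B t ω) * ind B a t ω ∂P := by
  have hc : Measurable fun x : ℝ => Real.cos (m * x) := by fun_prop
  have hs : Measurable fun x : ℝ => Real.sin (m * x) := by fun_prop
  have h1 := indep_step hB a t δ hc hc
  have h2 := indep_step hB a t δ hs hs
  rw [gauss_cos] at h1
  rw [gauss_sin, zero_mul] at h2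
  rw [← h1]
  have hlaw := (hB.shift t).hasLaw_eval δ
  have e : ∀ ω, Real.cos (m * B (t + δ) ω) * ind B a t ω =
      Real.cos (m * (B (t + δ) ω - B t ω)) * (Real.cos (m * B t ω) * ind B a t ω) -
      Real.sin (m * (B (t + δ) ω - B t ω)) * (Real.sin (m * B t ω) * ind B a t ω) := by
    intro ω
    have : m * B (t + δ) ω = m * (B (t + δ) ω - B t ω) + m * B t ω := by ring
    rw [this, Real.cos_add]
    ring
  simp_rw [e]
  rw [integral_sub, h2, sub_zero]
  · apply integrable_bdd
    · exact (hc.comp_aemeasurable hlaw.aemeasurable).aestronglyMeasurable.mul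
        ((hc.comp_aemeasurable (hB.aemeasurable t)).aestronglyMeasurable.mul (aesm_ind hB a t))
    · intro ω
      rw [abs_mul, abs_mul]
      have h1 := Real.abs_cos_le_one (m * (B (t + δ) ω - B t ω))
      have h2 := Real.abs_cos_le_one (m * B t ω)
      have h3 : |ind B a t ω| ≤ 1 := by rw [abs_of_nonneg (ind_nonneg a t ω)]; exact ind_le a t ω
      exact mul_le_one₀ h1 (by positivity) (mul_le_one₀ h2 (by positivity) h3)
  · apply integrable_bdd
    · exact (hs.comp_aemeasurable hlaw.aemeasurable).aestronglyMeasurable.mul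
        ((hs.comp_aemeasurable (hB.aemeasurable t)).aestronglyMeasurable.mul (aesm_ind hB a t))
    · intro ω
      rw [abs_mul, abs_mul]
      have h1 := Real.abs_sin_le_one (m * (B (t + δ) ω - B t ω))
      have h2 := Real.abs_sin_le_one (m * B t ω)
      have h3 : |ind B a t ω| ≤ 1 := by rw [abs_of_nonneg (ind_nonneg a t ω)]; exact ind_le a t ω
      exact mul_le_one₀ h1 (by positivity) (mul_le_one₀ h2 (by positivity) h3)

end step

end Pool.Agent.Q333.Exit
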