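import Pool.Agent.Q333.Exit.BM1

/-!
# Brownian motion in an interval: the cosine moments of the killed process
-/

set_option autoImplicit false

namespace Pool.Agent.Q333.Exit

open Filter Topology Set MeasureTheory ProbabilityTheory
open scoped NNReal ENNReal

section path

/-- indicator of `Good` -/
noncomputable def I0 (a : ℝ) (x : ℝ≥0 → ℝ) (t : ℝ≥0) : ℝ :=
  {x : ℝ≥0 → ℝ | Good a t x}.indicator (fun _ => (1 : ℝ)) x

theorem ind_eq {Ω : Type*} (B : ℝ≥0 → Ω → ℝ) (a : ℝ) (t : ℝ≥0) (ω : Ω) :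
    ind B a t ω = I0 a (B · ω) t := rfl

theorem Good.mono {a : ℝ} {s t : ℝ≥0} (h : s ≤ t) {x : ℝ≥0 → ℝ} (hg : Good a t x) :
    Good a s x := by
  obtain ⟨m, hm⟩ := hg
  exact ⟨m, fun n hn => hm n (hn.trans h)⟩

theorem I0_anti (a : ℝ) (x : ℝ≥0 → ℝ) : Antitone (I0 a x) := by
  intro s t hst
  unfold I0 indicator
  by_cases h : Good a t x
  · have h2 := h.mono hst
    simp [h, h2]
  · rw [if_neg (by exact h)]
    split_ifs <;> norm_num

theorem I0_nonneg (a : ℝ) (x : ℝ≥0 → ℝ) (t : ℝ≥0) : 0 ≤ I0 a x t :=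
  indicator_nonneg (fun _ _ => zero_le_one) _

theorem I0_le (a : ℝ) (x : ℝ≥0 → ℝ) (t : ℝ≥0) : I0 a x t ≤ 1 :=
  indicator_le_self' (fun _ _ => zero_le_one) _

/-- the sum of the errors -/
noncomputable def Wp (a m : ℝ) (x : ℝ≥0 → ℝ) (t : ℝ≥0) (N : ℕ) : ℝ :=
  ∑ k ∈ Finset.range N, |Real.cos (m * x ((k + 1 : ℕ) * (t / N)))| *
    (I0 a x (k * (t / N)) - I0 a x ((k + 1 : ℕ) * (t / N)))

theorem sum_I0 (a : ℝ) (x : ℝ≥0 → ℝ) (δ : ℝ≥0) (N : ℕ) :
    ∑ k ∈ Finset.range N, (I0 a x (k * δ) - I0 a x ((k + 1 : ℕ) * δ)) ≤ 1 := by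
  have h := Finset.sum_range_sub' (fun k : ℕ => I0 a x ((k : ℝ≥0) * δ)) N
  rw [h]
  have h1 := I0_le a x ((0 : ℕ) * δ)
  have h2 := I0_nonneg a x ((N : ℝ≥0) * δ)
  linarith

theorem term_nonneg (a : ℝ) (x : ℝ≥0 → ℝ) (δ : ℝ≥0) (k : ℕ) :
    0 ≤ I0 a x (k * δ) - I0 a x ((k + 1 : ℕ) * δ) := by
  apply sub_nonneg.2
  apply I0_anti
  gcongr
  exact Nat.le_succ k

theorem Wp_nonneg (a m : ℝ) (x : ℝ≥0 → ℝ) (t : ℝ≥0) (N : ℕ) : 0 ≤ Wp a m x t N :=
  Finset.sum_nonneg fun k _ => mul_nonneg (abs_nonneg _) (term_nonneg a x _ k)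

theorem Wp_le (a m : ℝ) (x : ℝ≥0 → ℝ) (t : ℝ≥0) (N : ℕ) : Wp a m x t N ≤ 1 := by
  refine (Finset.sum_le_sum fun k _ => ?_).trans (sum_I0 a x (t / N) N)
  have h1 := Real.abs_cos_le_one (m * x ((k + 1 : ℕ) * (t / N)))
  have h2 := term_nonneg a x (t / N) k
  nlinarith

theorem Wp_small {a : ℝ} (ha : 0 < a) {m : ℝ} (hm : Real.cos (m * a) = 0) {x : ℝ≥0 → ℝ}
    (hx : Continuous x) (h0 : x 0 = 0) (t : ℝ≥0) :
    Tendsto (Wp a m x t) atTop (𝓝 0) := by
  rw [Metric.tendsto_atTop]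
  intro ε hε
  have hu := (isCompact_Icc (a := (0 : ℝ≥0)) (b := t)).uniformContinuousOn_of_continuous
    hx.continuousOn
  rw [Metric.uniformContinuousOn_iff] at hu
  obtain ⟨η, hη, hU⟩ := hu (ε / 2 / (|m| + 1)) (by positivity)
  obtain ⟨N0, hN0⟩ := exists_nat_gt ((t : ℝ) / η)
  refine ⟨max N0 1, fun N hN => ?_⟩
  have hN1 : 1 ≤ N := (le_max_right _ _).trans hN
  have hN' : (0 : ℝ) < N := by exact_mod_cast hN1
  have hδ : ((t / N : ℝ≥0) : ℝ) < η := by
    rw [NNReal.coe_div, NNReal.coe_natCast, div_lt_iff₀ hN']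
    have h1 : ((N0 : ℕ) : ℝ) ≤ N := by exact_mod_cast (le_max_left _ _).trans hN
    have h2 := (div_lt_iff₀ hη).1 hN0
    nlinarith
  rw [Real.dist_eq, sub_zero, abs_of_nonneg (Wp_nonneg a m x t N)]
  have key : Wp a m x t N ≤ ∑ k ∈ Finset.range N,
      ε / 2 * (I0 a x (k * (t / N)) - I0 a x ((k + 1 : ℕ) * (t / N))) := by
    apply Finset.sum_le_sum
    intro k hk
    rw [Finset.mem_range] at hk
    by_cases hg1 : Good a ((k + 1 : ℕ) * (t / N)) x
    · have hle : (k : ℝ≥0) * (t / N) ≤ (k + 1 : ℕ) * (t / N) := by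
        gcongr
        exact Nat.le_succ k
      have hg0 := hg1.mono hle
      have e0 : I0 a x (k * (t / N)) = 1 := indicator_of_mem (by exact hg0) _
      have e1 : I0 a x ((k + 1 : ℕ) * (t / N)) = 1 := indicator_of_mem (by exact hg1) _
      rw [e0, e1, sub_self, mul_zero, mul_zero]
    · by_cases hg0 : Good a (k * (t / N)) x
      · -- the path leaves the interval in the step `k`
        apply mul_le_mul_of_nonneg_right _ (term_nonneg a x _ k)
        rw [good_iff ha hx h0] at hg1 hg0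
        push Not at hg1
        obtain ⟨s, hs, hsa⟩ := hg1
        have hks : (k : ℝ≥0) * (t / N) ≤ s := by
          by_contra hc
          exact absurd (hg0 s (le_of_lt (not_le.1 hc))) (not_lt.2 hsa)
        have hk0 := hg0 _ (le_refl _)
        obtain ⟨r, hr, hra⟩ := intermediate_value_Icc hks ((continuous_abs.comp hx).continuousOn)
          (show a ∈ Icc _ _ from ⟨le_of_lt hk0, hsa⟩)
        have hra' : |x r| = a := hra
        have hcr : Real.cos (m * x r) = 0 := by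
          rcases abs_eq (le_of_lt ha) |>.1 hra' with h | h
          · rw [h, hm]
          · rw [h, mul_neg, Real.cos_neg, hm]
        have hNt : (N : ℝ≥0) * (t / N) = t := by
          have : (N : ℝ≥0) ≠ 0 := by exact_mod_cast (by omega : N ≠ 0)
          field_simp
        have hkt : ((k + 1 : ℕ) : ℝ≥0) * (t / N) ≤ t := by
          have : ((k + 1 : ℕ) : ℝ≥0) * (t / N) ≤ (N : ℝ≥0) * (t / N) := by
            gcongr
            omega
          rwa [hNt] at this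
        have hrle : r ≤ ((k + 1 : ℕ) : ℝ≥0) * (t / N) := hr.2.trans hs
        have hd : dist (((k + 1 : ℕ) : ℝ≥0) * (t / N)) r < η := by
          rw [NNReal.dist_eq, abs_of_nonneg (sub_nonneg.2 (by exact_mod_cast hrle))]
          have h1 : ((((k : ℝ≥0)) * (t / N) : ℝ≥0) : ℝ) ≤ r := by exact_mod_cast hr.1
          have h2 : (((((k + 1 : ℕ) : ℝ≥0)) * (t / N) : ℝ≥0) : ℝ) =
              ((((k : ℝ≥0)) * (t / N) : ℝ≥0) : ℝ) + ((t / N : ℝ≥0) : ℝ) := by
            push_cast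
            ring
          rw [h2]
          linarith
        have h3 := hU _ ⟨zero_le, hkt⟩ r ⟨zero_le, hrle.trans hkt⟩ hd
        rw [Real.dist_eq] at h3
        calc |Real.cos (m * x ((k + 1 : ℕ) * (t / N)))|
            = |Real.cos (m * x ((k + 1 : ℕ) * (t / N))) - Real.cos (m * x r)| := by
              rw [hcr, sub_zero]
          _ ≤ |m * x ((k + 1 : ℕ) * (t / N)) - m * x r| := Real.abs_cos_sub_cos_le _ _
          _ = |m| * |x ((k + 1 : ℕ) * (t / N)) - x r| := by rw [← mul_sub, abs_mul]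
          _ ≤ |m| * (ε / 2 / (|m| + 1)) := mul_le_mul_of_nonneg_left h3.le (abs_nonneg _)
          _ ≤ ε / 2 := by
            rw [mul_div_assoc', div_le_iff₀ (by positivity)]
            nlinarith [abs_nonneg m]
      · have e0 : I0 a x (k * (t / N)) = 0 := indicator_of_notMem (by exact hg0) _
        have e1 : I0 a x ((k + 1 : ℕ) * (t / N)) = 0 := indicator_of_notMem (by exact hg1) _
        rw [e0, e1, sub_self, mul_zero, mul_zero]
  rw [← Finset.mul_sum] at key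
  have h5 := sum_I0 a x (t / N) N
  nlinarith

end path

section cm

variable {Ω : Type*} {mΩ : MeasurableSpace Ω} {P : Measure Ω} {B : ℝ≥0 → Ω → ℝ}

/-- the cosine moments -/
noncomputable def Cm (B : ℝ≥0 → Ω → ℝ) (P : Measure Ω) (a m : ℝ) (t : ℝ≥0) : ℝ :=
  ∫ ω, Real.cos (m * B t ω) * ind B a t ω ∂P

theorem aesm_cos (hB : IsPreBrownianReal B P) (m : ℝ) (t : ℝ≥0) :
    AEStronglyMeasurable (fun ω => Real.cos (m * B t ω)) P :=
  ((by fun_prop : Measurable fun x : ℝ => Real.cos (m * x)).comp_aemeasurable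
    (hB.aemeasurable t)).aestronglyMeasurable

theorem int_cos_ind [IsProbabilityMeasure P] (hB : IsPreBrownianReal B P) (a m : ℝ)
    (s t : ℝ≥0) : Integrable (fun ω => Real.cos (m * B s ω) * ind B a t ω) P := by
  apply integrable_bdd ((aesm_cos hB m s).mul (aesm_ind hB a t))
  intro ω
  show |Real.cos (m * B s ω) * ind B a t ω| ≤ 1
  rw [abs_mul]
  have h1 := Real.abs_cos_le_one (m * B s ω)
  have h3 : |ind B a t ω| ≤ 1 := by rw [abs_of_nonneg (ind_nonneg a t ω)]; exact ind_le a t ω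
  exact mul_le_one₀ h1 (by positivity) h3

theorem Cm_step [IsProbabilityMeasure P] (hB : IsPreBrownianReal B P) (a m : ℝ) (t : ℝ≥0)
    (N k : ℕ) (hk : k < N) :
    |Real.exp (m ^ 2 / 2 * ((k + 1 : ℕ) * (t / N) : ℝ≥0)) * Cm B P a m ((k + 1 : ℕ) * (t / N)) -
      Real.exp (m ^ 2 / 2 * (k * (t / N) : ℝ≥0)) * Cm B P a m (k * (t / N))| ≤
    Real.exp (m ^ 2 / 2 * t) * ∫ ω, |Real.cos (m * B ((k + 1 : ℕ) * (t / N)) ω)| *
      (ind B a (k * (t / N)) ω - ind B a ((k + 1 : ℕ) * (t / N)) ω) ∂P := by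
  set δ : ℝ≥0 := t / N with hδ
  have e1 : ((k + 1 : ℕ) : ℝ≥0) * δ = k * δ + δ := by push_cast; ring
  have h1 := step hB a m (k * δ) δ
  rw [← e1] at h1
  have h2 : Real.exp (m ^ 2 / 2 * (k * δ : ℝ≥0)) * Cm B P a m (k * δ) =
      Real.exp (m ^ 2 / 2 * ((k + 1 : ℕ) * δ : ℝ≥0)) *
        ∫ ω, Real.cos (m * B ((k + 1 : ℕ) * δ) ω) * ind B a (k * δ) ω ∂P := by
    rw [h1, ← mul_assoc, ← Real.exp_add, Cm]
    congr 2
    push_cast
    ring
  rw [h2, Cm, ← mul_sub, ← integral_sub (int_cos_ind hB a m _ _) (int_cos_ind hB a m _ _), abs_mul,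
    abs_of_pos (Real.exp_pos _)]
  have hNt : (N : ℝ≥0) * δ = t := by
    have : (N : ℝ≥0) ≠ 0 := by exact_mod_cast (by omega : N ≠ 0)
    rw [hδ]
    field_simp
  have hkt : ((k + 1 : ℕ) : ℝ≥0) * δ ≤ t := by
    have : ((k + 1 : ℕ) : ℝ≥0) * δ ≤ (N : ℝ≥0) * δ := by
      gcongr
      omega
    rwa [hNt] at this
  apply mul_le_mul _ _ (abs_nonneg _) (Real.exp_pos _).le
  · apply Real.exp_le_exp.2
    apply mul_le_mul_of_nonneg_left _ (by positivity)
    exact_mod_cast hkt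
  · refine (abs_integral_le_integral_abs).trans (le_of_eq ?_)
    congr 1
    funext ω
    rw [← mul_sub, abs_mul, abs_sub_comm, ind_eq, ind_eq, abs_of_nonneg (term_nonneg a _ δ k)]

theorem Cm_total [IsProbabilityMeasure P] (hB : IsPreBrownianReal B P) (a m : ℝ) (t : ℝ≥0)
    (N : ℕ) (hN : 1 ≤ N) :
    |Real.exp (m ^ 2 / 2 * t) * Cm B P a m t - Cm B P a m 0| ≤
    Real.exp (m ^ 2 / 2 * t) * ∫ ω, Wp a m (B · ω) t N ∂P := by
  have hint : ∀ k : ℕ, Integrable (fun ω => |Real.cos (m * B ((k + 1 : ℕ) * (t / N)) ω)| *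
      (ind B a (k * (t / N)) ω - ind B a ((k + 1 : ℕ) * (t / N)) ω)) P := by
    intro k
    apply integrable_bdd (((aesm_cos hB m _).norm).mul ((aesm_ind hB a _).sub (aesm_ind hB a _)))
    intro ω
    show |(|Real.cos (m * B ((k + 1 : ℕ) * (t / N)) ω)|) *
      (ind B a (k * (t / N)) ω - ind B a ((k + 1 : ℕ) * (t / N)) ω)| ≤ 1
    rw [abs_mul, abs_abs]
    have h1 := Real.abs_cos_le_one (m * B ((k + 1 : ℕ) * (t / N)) ω)
    have h3 : |ind B a (k * (t / N)) ω - ind B a ((k + 1 : ℕ) * (t / N)) ω| ≤ 1 := by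
      rw [ind_eq, ind_eq, abs_of_nonneg (term_nonneg a _ _ k)]
      have h4 := I0_le a (B · ω) (k * (t / N))
      have h5 := I0_nonneg a (B · ω) ((k + 1 : ℕ) * (t / N))
      linarith
    exact mul_le_one₀ h1 (by positivity) h3
  have hW : ∫ ω, Wp a m (B · ω) t N ∂P = ∑ k ∈ Finset.range N,
      ∫ ω, |Real.cos (m * B ((k + 1 : ℕ) * (t / N)) ω)| *
      (ind B a (k * (t / N)) ω - ind B a ((k + 1 : ℕ) * (t / N)) ω) ∂P := by
    rw [← integral_finsetSum _ fun k _ => hint k]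
    rfl
  have hNt : (N : ℝ≥0) * (t / N) = t := by
    have : (N : ℝ≥0) ≠ 0 := by exact_mod_cast (by omega : N ≠ 0)
    field_simp
  have htel := Finset.sum_range_sub (fun k : ℕ => Real.exp (m ^ 2 / 2 * ((k : ℝ≥0) * (t / N) : ℝ≥0)) *
    Cm B P a m ((k : ℝ≥0) * (t / N))) N
  rw [hNt, Nat.cast_zero, zero_mul, NNReal.coe_zero, mul_zero, Real.exp_zero, one_mul] at htel
  rw [← htel, hW, Finset.mul_sum]
  refine (Finset.abs_sum_le_sum_abs _ _).trans (Finset.sum_le_sum fun k hk => ?_)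
  exact Cm_step hB a m t N k (Finset.mem_range.1 hk)

theorem Cm_zero [IsProbabilityMeasure P] (hB : IsBrownianReal B P) {a : ℝ} (ha : 0 < a) (m : ℝ) :
    Cm B P a m 0 = 1 := by
  have h : (fun ω => Real.cos (m * B 0 ω) * ind B a 0 ω) =ᵐ[P] fun _ => 1 := by
    filter_upwards [hB.cont, hB.eval_zero_ae_eq_zero] with ω hc h0
    have hg : Good a 0 (B · ω) := by
      rw [good_iff ha hc h0]
      intro s hs
      have : s = 0 := le_antisymm hs zero_le
      rw [this, h0, abs_zero]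
      exact ha
    have e0 : ind B a 0 ω = 1 := indicator_of_mem (by exact hg) _
    rw [e0, h0, mul_zero, Real.cos_zero, mul_one]
  rw [Cm, integral_congr_ae h]
  simp

/-- **The cosine moments of Brownian motion killed at the boundary of `(-a, a)`.** -/
theorem Cm_eq [IsProbabilityMeasure P] (hB : IsBrownianReal B P) {a : ℝ} (ha : 0 < a) {m : ℝ}
    (hm : Real.cos (m * a) = 0) (t : ℝ≥0) :
    Cm B P a m t = Real.exp (-(m ^ 2 / 2 * t)) := by
  have hlim : Tendsto (fun N : ℕ => ∫ ω, Wp a m (B · ω) t N ∂P) atTop (𝓝 (∫ _ω, (0 : ℝ) ∂P)) := by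
    apply tendsto_integral_of_dominated_convergence (fun _ => (1 : ℝ))
    · intro N
      unfold Wp
      apply Finset.aestronglyMeasurable_fun_sum
      intro k _
      exact ((aesm_cos hB.toIsPreBrownianReal m _).norm).mul
        ((aesm_ind hB.toIsPreBrownianReal a _).sub (aesm_ind hB.toIsPreBrownianReal a _))
    · exact integrable_const _
    · intro N
      refine Eventually.of_forall fun ω => ?_
      rw [Real.norm_eq_abs, abs_of_nonneg (Wp_nonneg _ _ _ _ _)]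
      exact Wp_le _ _ _ _ _
    · filter_upwards [hB.cont, hB.eval_zero_ae_eq_zero] with ω hc h0
      exact Wp_small ha hm hc h0 t
  rw [integral_zero] at hlim
  have h2 := hlim.const_mul (Real.exp (m ^ 2 / 2 * t))
  rw [mul_zero] at h2
  have h3 : |Real.exp (m ^ 2 / 2 * t) * Cm B P a m t - Cm B P a m 0| ≤ 0 := by
    apply ge_of_tendsto h2
    filter_upwards [eventually_ge_atTop 1] with N hN
    exact Cm_total hB.toIsPreBrownianReal a m t N hN
  rw [Cm_zero hB ha] at h3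
  have h4 : Real.exp (m ^ 2 / 2 * t) * Cm B P a m t = 1 := by
    have := abs_nonpos_iff.1 h3
    linarith
  rw [Real.exp_neg]
  exact eq_inv_of_mul_eq_one_right h4

end cm

end Pool.Agent.Q333.Exit
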