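import Pool.Agent.Q164.Theta1
import Mathlib

/-!
# The survival function of the exit time of Brownian motion from an interval

`S t = ∑ (-1)^n 4/(π(2n+1)) exp(-(2n+1)²π²t/8)`. Its logarithm is strictly concave: by Jacobi's
identity `-S' = (π/2) e^{-π²t/8} ∏ (1 - e^{-nπ²t})³`.
-/

set_option autoImplicit false

namespace Pool.Agent.Q333.Exit

open Filter Topology Set MeasureTheory
open Pool.Agent.Q164.Theta1 (T two_T L P P_tendsto P_succ P_pos L_pos jacobi Ainf)

/-- `λ_n = (2n+1)²π²/8` -/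
noncomputable def rt (n : ℕ) : ℝ := (2 * n + 1) ^ 2 * Real.pi ^ 2 / 8

/-- the survival function -/
noncomputable def S (t : ℝ) : ℝ :=
  ∑' n : ℕ, (-1) ^ n * (4 / (Real.pi * (2 * n + 1))) * Real.exp (-(rt n) * t)

/-- the density -/
noncomputable def f (t : ℝ) : ℝ :=
  ∑' n : ℕ, (-1) ^ n * (Real.pi / 2 * (2 * n + 1)) * Real.exp (-(rt n) * t)

theorem rt_pos (n : ℕ) : 0 < rt n := by unfold rt; positivity

theorem rt_ge (n : ℕ) : (n : ℝ) * (Real.pi ^ 2 / 8) ≤ rt n := by
  unfold rt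
  have h1 : (n : ℝ) ≤ (2 * n + 1) ^ 2 := by
    have : (0 : ℝ) ≤ n := Nat.cast_nonneg n
    nlinarith
  have h2 : 0 ≤ Real.pi ^ 2 / 8 := by positivity
  calc (n : ℝ) * (Real.pi ^ 2 / 8) ≤ (2 * n + 1) ^ 2 * (Real.pi ^ 2 / 8) :=
        mul_le_mul_of_nonneg_right h1 h2
    _ = _ := by ring

theorem rt_zero_le (n : ℕ) : rt 0 ≤ rt n := by
  unfold rt
  have h1 : (1 : ℝ) ≤ (2 * n + 1) ^ 2 := by
    have : (0 : ℝ) ≤ n := Nat.cast_nonneg n
    nlinarith
  have h2 : 0 ≤ Real.pi ^ 2 := by positivity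
  have h3 : ((2 * ((0 : ℕ) : ℝ) + 1) ^ 2) = 1 := by norm_num
  rw [h3]
  nlinarith

theorem exp_le_geo {t : ℝ} (ht : 0 < t) (n : ℕ) :
    Real.exp (-(rt n) * t) ≤ Real.exp (-(Real.pi ^ 2 / 8) * t) ^ n := by
  rw [← Real.exp_nat_mul]
  apply Real.exp_le_exp.2
  have := rt_ge n
  nlinarith

theorem geo_lt {t : ℝ} (ht : 0 < t) : ‖Real.exp (-(Real.pi ^ 2 / 8) * t)‖ < 1 := by
  rw [Real.norm_eq_abs, abs_of_pos (Real.exp_pos _), Real.exp_lt_one_iff]
  have : 0 < Real.pi ^ 2 / 8 := by positivity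
  nlinarith

/-- the dominating series -/
theorem summable_lin {t : ℝ} (ht : 0 < t) (C D : ℝ) :
    Summable fun n : ℕ => (C * n + D) * Real.exp (-(rt n) * t) := by
  have h1 : Summable fun n : ℕ => (n : ℝ) ^ 1 * Real.exp (-(Real.pi ^ 2 / 8) * t) ^ n :=
    summable_pow_mul_geometric_of_norm_lt_one 1 (geo_lt ht)
  have h0 : Summable fun n : ℕ => Real.exp (-(Real.pi ^ 2 / 8) * t) ^ n :=
    summable_geometric_of_norm_lt_one (geo_lt ht)
  have h2 : Summable fun n : ℕ => |C| * ((n : ℝ) ^ 1 * Real.exp (-(Real.pi ^ 2 / 8) * t) ^ n) +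
    |D| * Real.exp (-(Real.pi ^ 2 / 8) * t) ^ n := (h1.mul_left _).add (h0.mul_left _)
  refine Summable.of_norm_bounded h2 fun n => ?_
  rw [Real.norm_eq_abs, abs_mul, abs_of_pos (Real.exp_pos _)]
  have h3 : |C * n + D| ≤ |C| * n + |D| := by
    refine (abs_add_le _ _).trans ?_
    rw [abs_mul, Nat.abs_cast]
  have h4 := exp_le_geo ht n
  have h5 : 0 ≤ |C| * n + |D| := by positivity
  calc |C * n + D| * Real.exp (-(rt n) * t)
      ≤ (|C| * n + |D|) * Real.exp (-(Real.pi ^ 2 / 8) * t) ^ n :=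
        mul_le_mul h3 h4 (Real.exp_pos _).le h5
    _ = _ := by ring

theorem abs_alt (n : ℕ) (c : ℝ) : |(-1) ^ n * c| = |c| := by
  rw [abs_mul, abs_pow, abs_neg, abs_one, one_pow, one_mul]

theorem summable_S {t : ℝ} (ht : 0 < t) :
    Summable fun n : ℕ => (-1) ^ n * (4 / (Real.pi * (2 * n + 1))) * Real.exp (-(rt n) * t) := by
  refine Summable.of_norm_bounded (summable_lin ht 0 2) fun n => ?_
  rw [Real.norm_eq_abs, abs_mul, abs_alt, abs_of_pos (Real.exp_pos _)]
  apply mul_le_mul_of_nonneg_right _ (Real.exp_pos _).le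
  rw [abs_of_pos (by positivity), div_le_iff₀ (by positivity)]
  have h1 := Real.pi_gt_three
  have h2 : (0 : ℝ) ≤ n := Nat.cast_nonneg n
  nlinarith

theorem summable_f {t : ℝ} (ht : 0 < t) :
    Summable fun n : ℕ => (-1) ^ n * (Real.pi / 2 * (2 * n + 1)) * Real.exp (-(rt n) * t) := by
  refine Summable.of_norm_bounded (summable_lin ht Real.pi (Real.pi / 2)) fun n => ?_
  rw [Real.norm_eq_abs, abs_mul, abs_alt, abs_of_pos (Real.exp_pos _)]
  apply mul_le_mul_of_nonneg_right _ (Real.exp_pos _).le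
  rw [abs_of_pos (by positivity)]
  linarith

theorem hasDerivAt_S {t : ℝ} (ht : 0 < t) : HasDerivAt S (-f t) t := by
  have h := hasDerivAt_tsum_of_isPreconnected (𝕜 := ℝ) (F := ℝ)
    (u := fun n : ℕ => (Real.pi * n + Real.pi / 2) * Real.exp (-(rt n) * (t / 2)))
    (g := fun (n : ℕ) (s : ℝ) =>
      (-1) ^ n * (4 / (Real.pi * (2 * n + 1))) * Real.exp (-(rt n) * s))
    (g' := fun (n : ℕ) (s : ℝ) =>
      -((-1) ^ n * (Real.pi / 2 * (2 * n + 1)) * Real.exp (-(rt n) * s)))
    (t := Ioi (t / 2)) (y₀ := t) (y := t) (summable_lin (by linarith) _ _) isOpen_Ioi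
    isPreconnected_Ioi ?_ ?_ ?_ ?_ ?_
  · rw [tsum_neg] at h
    exact h
  · intro n s hs
    have h1 : HasDerivAt (fun s : ℝ => Real.exp (-(rt n) * s))
        (Real.exp (-(rt n) * s) * (-(rt n) * 1)) s :=
      ((hasDerivAt_id s).const_mul (-(rt n))).exp
    have h2 := h1.const_mul ((-1) ^ n * (4 / (Real.pi * (2 * n + 1))))
    refine h2.congr_deriv ?_
    have h3 : (2 * (n : ℝ) + 1) ≠ 0 := by positivity
    have h4 := Real.pi_ne_zero
    have h5 : 4 / (Real.pi * (2 * (n : ℝ) + 1)) * rt n = Real.pi / 2 * (2 * n + 1) := by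
      unfold rt
      field_simp
      ring
    rw [← h5]
    ring
  · intro n s hs
    rw [norm_neg, Real.norm_eq_abs, abs_mul, abs_alt, abs_of_pos (Real.exp_pos _),
      abs_of_pos (by positivity)]
    have h1 : Real.exp (-(rt n) * s) ≤ Real.exp (-(rt n) * (t / 2)) := by
      apply Real.exp_le_exp.2
      have := rt_pos n
      have h2 : t / 2 < s := hs
      nlinarith
    calc Real.pi / 2 * (2 * n + 1) * Real.exp (-(rt n) * s)
        ≤ Real.pi / 2 * (2 * n + 1) * Real.exp (-(rt n) * (t / 2)) :=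
          mul_le_mul_of_nonneg_left h1 (by positivity)
      _ = _ := by ring
  · show t / 2 < t
    linarith
  · exact summable_S ht
  · show t / 2 < t
    linarith

/-- Jacobi's identity for the density. -/
theorem f_eq {t : ℝ} (ht : 0 < t) : f t =
    Real.pi / 2 * Real.exp (-(Real.pi ^ 2 / 8) * t) * L (Real.exp (-(Real.pi ^ 2) * t)) ^ 3 := by
  have hq0 : 0 < Real.exp (-(Real.pi ^ 2) * t) := Real.exp_pos _
  have hq1 : Real.exp (-(Real.pi ^ 2) * t) < 1 := by
    rw [Real.exp_lt_one_iff]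
    have : 0 < Real.pi ^ 2 := by positivity
    nlinarith
  rw [← jacobi hq0 hq1, Ainf, f, ← tsum_mul_left]
  apply tsum_congr
  intro n
  have h1 : Real.exp (-(rt n) * t) = Real.exp (-(Real.pi ^ 2 / 8) * t) *
      Real.exp (-(Real.pi ^ 2) * t) ^ T n := by
    rw [← Real.exp_nat_mul, ← Real.exp_add]
    congr 1
    have h2 : (2 : ℝ) * (T n : ℝ) = n * (n + 1) := by exact_mod_cast two_T n
    have h3 : (T n : ℝ) = n * (n + 1) / 2 := by linarith
    rw [h3]
    unfold rt
    ring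
  rw [h1]
  ring

/-- one factor of the product -/
theorem factor {x y δ : ℝ} (hxy : x ≤ y) (hδ : 0 ≤ δ) {c : ℝ} (hc : 0 ≤ c) :
    (1 - Real.exp (-c * x)) * (1 - Real.exp (-c * (y + δ))) ≤
      (1 - Real.exp (-c * (x + δ))) * (1 - Real.exp (-c * y)) := by
  have h1 : Real.exp (-c * (y + δ)) = Real.exp (-c * y) * Real.exp (-c * δ) := by
    rw [← Real.exp_add]; ring_nf
  have h2 : Real.exp (-c * (x + δ)) = Real.exp (-c * x) * Real.exp (-c * δ) := by
    rw [← Real.exp_add]; ring_nf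
  have h3 : Real.exp (-c * y) ≤ Real.exp (-c * x) := by
    apply Real.exp_le_exp.2; nlinarith
  have h4 : Real.exp (-c * δ) ≤ 1 := by
    rw [Real.exp_le_one_iff]; nlinarith
  rw [h1, h2]
  nlinarith [mul_nonneg (sub_nonneg.2 h3) (sub_nonneg.2 h4)]

/-- strict form -/
theorem factor_lt {x y δ : ℝ} (hxy : x < y) (hδ : 0 < δ) {c : ℝ} (hc : 0 < c) :
    (1 - Real.exp (-c * x)) * (1 - Real.exp (-c * (y + δ))) <
      (1 - Real.exp (-c * (x + δ))) * (1 - Real.exp (-c * y)) := by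
  have h1 : Real.exp (-c * (y + δ)) = Real.exp (-c * y) * Real.exp (-c * δ) := by
    rw [← Real.exp_add]; ring_nf
  have h2 : Real.exp (-c * (x + δ)) = Real.exp (-c * x) * Real.exp (-c * δ) := by
    rw [← Real.exp_add]; ring_nf
  have h3 : Real.exp (-c * y) < Real.exp (-c * x) := by
    apply Real.exp_lt_exp.2; nlinarith
  have h4 : Real.exp (-c * δ) < 1 := by
    rw [Real.exp_lt_one_iff]; nlinarith
  rw [h1, h2]
  nlinarith [mul_pos (sub_pos.2 h3) (sub_pos.2 h4)]

/-- `q = e^{-π² t}` -/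
noncomputable def qq (t : ℝ) : ℝ := Real.exp (-(Real.pi ^ 2) * t)

theorem qq_pos (t : ℝ) : 0 < qq t := Real.exp_pos _

theorem qq_lt {t : ℝ} (ht : 0 < t) : qq t < 1 := by
  unfold qq
  rw [Real.exp_lt_one_iff]
  have : 0 < Real.pi ^ 2 := by positivity
  nlinarith

theorem qq_pow (t : ℝ) (i : ℕ) : qq t ^ (i + 1) = Real.exp (-(((i : ℝ) + 1) * Real.pi ^ 2) * t) := by
  unfold qq
  rw [← Real.exp_nat_mul]
  congr 1
  push_cast
  ring

/-- the product without its first factor -/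
noncomputable def W (m : ℕ) (t : ℝ) : ℝ := ∏ i ∈ Finset.range m, (1 - qq t ^ (i + 2))

theorem P_eq (m : ℕ) (t : ℝ) : P (qq t) (m + 1) = (1 - qq t) * W m t := by
  unfold P W
  rw [Finset.prod_range_succ', mul_comm]
  simp

theorem fac_nonneg {t : ℝ} (ht : 0 < t) (i : ℕ) : 0 < 1 - qq t ^ (i + 1) := by
  have := pow_lt_one₀ (qq_pos t).le (qq_lt ht) (Nat.succ_ne_zero i)
  simpa using this

theorem W_pos {t : ℝ} (ht : 0 < t) (m : ℕ) : 0 < W m t :=
  Finset.prod_pos fun i _ => fac_nonneg ht (i + 1)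

theorem W_pf {x y δ : ℝ} (hx : 0 < x) (hxy : x ≤ y) (hδ : 0 ≤ δ) (m : ℕ) :
    W m x * W m (y + δ) ≤ W m (x + δ) * W m y := by
  unfold W
  rw [← Finset.prod_mul_distrib, ← Finset.prod_mul_distrib]
  apply Finset.prod_le_prod
  · intro i _
    exact (mul_pos (fac_nonneg hx (i + 1)) (fac_nonneg (by linarith) (i + 1))).le
  · intro i _
    rw [qq_pow x (i + 1), qq_pow (y + δ) (i + 1), qq_pow (x + δ) (i + 1), qq_pow y (i + 1)]
    exact factor hxy hδ (by positivity)

/-- the infinite product without its first factor -/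
noncomputable def Wi (t : ℝ) : ℝ := L (qq t) / (1 - qq t)

theorem W_tendsto {t : ℝ} (ht : 0 < t) : Tendsto (fun m => W m t) atTop (𝓝 (Wi t)) := by
  have h1 := (P_tendsto (qq_pos t) (qq_lt ht)).comp (tendsto_add_atTop_nat 1)
  have h2 := h1.div_const (1 - qq t)
  refine h2.congr fun m => ?_
  have h3 : 1 - qq t ≠ 0 := (by have := qq_lt ht; linarith : 0 < 1 - qq t).ne'
  rw [Function.comp_apply, P_eq, mul_div_cancel_left₀ _ h3]

theorem Wi_pos {t : ℝ} (ht : 0 < t) : 0 < Wi t :=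
  div_pos (L_pos (qq_pos t) (qq_lt ht)) (by have := qq_lt ht; linarith)

theorem Wi_pf {x y δ : ℝ} (hx : 0 < x) (hxy : x ≤ y) (hδ : 0 ≤ δ) :
    Wi x * Wi (y + δ) ≤ Wi (x + δ) * Wi y :=
  le_of_tendsto_of_tendsto' ((W_tendsto hx).mul (W_tendsto (by linarith)))
    ((W_tendsto (by linarith)).mul (W_tendsto (by linarith))) fun m => W_pf hx hxy hδ m

theorem L_pf {x y δ : ℝ} (hx : 0 < x) (hxy : x < y) (hδ : 0 < δ) :
    L (qq x) * L (qq (y + δ)) < L (qq (x + δ)) * L (qq y) := by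
  have e : ∀ {t : ℝ}, 0 < t → L (qq t) = (1 - qq t) * Wi t := by
    intro t ht
    have h3 : 1 - qq t ≠ 0 := (by have := qq_lt ht; linarith : 0 < 1 - qq t).ne'
    unfold Wi
    field_simp
  have hp : ∀ {t : ℝ}, 0 < t → 0 < 1 - qq t := by
    intro t ht
    have := qq_lt ht; linarith
  rw [e hx, e (by linarith), e (by linarith), e (by linarith)]
  have h1 := Wi_pf hx hxy.le hδ.le
  have h2 : (1 - qq x) * (1 - qq (y + δ)) < (1 - qq (x + δ)) * (1 - qq y) :=
    factor_lt hxy hδ (by positivity)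
  have h3 : 0 < Wi x * Wi (y + δ) := mul_pos (Wi_pos hx) (Wi_pos (by linarith))
  have h4 : 0 < (1 - qq (x + δ)) * (1 - qq y) := mul_pos (hp (by linarith)) (hp (by linarith))
  calc (1 - qq x) * Wi x * ((1 - qq (y + δ)) * Wi (y + δ))
      = ((1 - qq x) * (1 - qq (y + δ))) * (Wi x * Wi (y + δ)) := by ring
    _ < ((1 - qq (x + δ)) * (1 - qq y)) * (Wi x * Wi (y + δ)) := mul_lt_mul_of_pos_right h2 h3
    _ ≤ ((1 - qq (x + δ)) * (1 - qq y)) * (Wi (x + δ) * Wi y) := mul_le_mul_of_nonneg_left h1 h4.le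
    _ = _ := by ring

theorem f_pos {t : ℝ} (ht : 0 < t) : 0 < f t := by
  rw [f_eq ht]
  have := L_pos (qq_pos t) (qq_lt ht)
  unfold qq at this
  positivity

/-- the density is strictly log-concave -/
theorem f_pf {x y δ : ℝ} (hx : 0 < x) (hxy : x < y) (hδ : 0 < δ) :
    f x * f (y + δ) < f (x + δ) * f y := by
  have e : ∀ {t : ℝ}, 0 < t → f t = Real.pi / 2 * Real.exp (-(Real.pi ^ 2 / 8) * t) *
    L (qq t) ^ 3 := fun ht => f_eq ht
  rw [e hx, e (by linarith), e (by linarith), e (by linarith)]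
  have h1 := L_pf hx hxy hδ
  have h0 : 0 ≤ L (qq x) * L (qq (y + δ)) :=
    (mul_pos (L_pos (qq_pos _) (qq_lt hx)) (L_pos (qq_pos _) (qq_lt (by linarith)))).le
  have h2 := pow_lt_pow_left₀ h1 h0 (three_ne_zero)
  have h3 : Real.exp (-(Real.pi ^ 2 / 8) * x) * Real.exp (-(Real.pi ^ 2 / 8) * (y + δ)) =
      Real.exp (-(Real.pi ^ 2 / 8) * (x + δ)) * Real.exp (-(Real.pi ^ 2 / 8) * y) := by
    rw [← Real.exp_add, ← Real.exp_add]
    congr 1
    ring
  have h4 : 0 < (Real.pi / 2) ^ 2 * (Real.exp (-(Real.pi ^ 2 / 8) * x) *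
      Real.exp (-(Real.pi ^ 2 / 8) * (y + δ))) := by positivity
  calc _ = (Real.pi / 2) ^ 2 * (Real.exp (-(Real.pi ^ 2 / 8) * x) *
      Real.exp (-(Real.pi ^ 2 / 8) * (y + δ))) * (L (qq x) * L (qq (y + δ))) ^ 3 := by ring
    _ < (Real.pi / 2) ^ 2 * (Real.exp (-(Real.pi ^ 2 / 8) * x) *
      Real.exp (-(Real.pi ^ 2 / 8) * (y + δ))) * (L (qq (x + δ)) * L (qq y)) ^ 3 :=
        mul_lt_mul_of_pos_left h2 h4
    _ = _ := by rw [h3]; ring

/-- decay -/
theorem S_abs_le {t : ℝ} (ht : 1 ≤ t) :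
    |S t| ≤ Real.exp (-(rt 0) * (t - 1)) * ∑' n : ℕ, (0 * n + 2) * Real.exp (-(rt n) * 1) := by
  rw [← tsum_mul_left]
  have h1 : Summable fun n : ℕ => Real.exp (-(rt 0) * (t - 1)) *
      ((0 * (n : ℝ) + 2) * Real.exp (-(rt n) * 1)) := (summable_lin one_pos 0 2).mul_left _
  apply (norm_tsum_le_tsum_norm (summable_S (by linarith)).norm).trans
  apply Summable.tsum_le_tsum _ (summable_S (by linarith)).norm h1
  intro n
  rw [Real.norm_eq_abs, abs_mul, abs_alt, abs_of_pos (Real.exp_pos _)]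
  have h2 : |4 / (Real.pi * (2 * (n : ℝ) + 1))| ≤ 2 := by
    rw [abs_of_pos (by positivity), div_le_iff₀ (by positivity)]
    have h1 := Real.pi_gt_three
    have h2 : (0 : ℝ) ≤ n := Nat.cast_nonneg n
    nlinarith
  have h3 : Real.exp (-(rt n) * t) ≤ Real.exp (-(rt 0) * (t - 1)) * Real.exp (-(rt n) * 1) := by
    rw [← Real.exp_add]
    apply Real.exp_le_exp.2
    have := rt_zero_le n
    nlinarith
  calc |4 / (Real.pi * (2 * (n : ℝ) + 1))| * Real.exp (-(rt n) * t)
      ≤ 2 * (Real.exp (-(rt 0) * (t - 1)) * Real.exp (-(rt n) * 1)) :=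
        mul_le_mul h2 h3 (Real.exp_pos _).le (by norm_num)
    _ = _ := by ring

theorem S_tendsto : Tendsto S atTop (𝓝 0) := by
  have h1 : Tendsto (fun t : ℝ => Real.exp (-(rt 0) * (t - 1)) *
      ∑' n : ℕ, (0 * (n : ℝ) + 2) * Real.exp (-(rt n) * 1)) atTop (𝓝 (0 *
      ∑' n : ℕ, (0 * (n : ℝ) + 2) * Real.exp (-(rt n) * 1))) := by
    apply Tendsto.mul_const
    apply Real.tendsto_exp_atBot.comp
    have h2 : Tendsto (fun t : ℝ => rt 0 * (t - 1)) atTop atTop :=
      (tendsto_atTop_add_const_right atTop (-1) tendsto_id).const_mul_atTop (rt_pos 0)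
    refine (tendsto_neg_atTop_atBot.comp h2).congr fun t => ?_
    simp only [Function.comp_apply]
    ring
  rw [zero_mul] at h1
  apply squeeze_zero_norm' _ h1
  filter_upwards [eventually_ge_atTop 1] with t ht
  exact S_abs_le ht

/-- the tail -/
theorem integrable_f {x : ℝ} (hx : 0 < x) : IntegrableOn f (Ioi x) := by
  have h := integrableOn_Ioi_deriv_of_nonneg' (g := fun t => -S t) (g' := f) (a := x) (l := 0)
    (fun t ht => by
      have := (hasDerivAt_S (t := t) (hx.trans_le ht)).neg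
      rwa [neg_neg] at this)
    (fun t ht => (f_pos (hx.trans ht)).le) (by simpa using S_tendsto.neg)
  exact h

theorem integral_f {x : ℝ} (hx : 0 < x) : ∫ t in Ioi x, f t = S x := by
  have h := integral_Ioi_of_hasDerivAt_of_nonneg' (g := fun t => -S t) (g' := f) (a := x) (l := 0)
    (fun t ht => by
      have := (hasDerivAt_S (t := t) (hx.trans_le ht)).neg
      rwa [neg_neg] at this)
    (fun t ht => (f_pos (hx.trans ht)).le) (by simpa using S_tendsto.neg)
  rw [h]
  ring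

theorem S_pos {x : ℝ} (hx : 0 < x) : 0 < S x := by
  rw [← integral_f hx, setIntegral_pos_iff_support_of_nonneg_ae _ (integrable_f hx)]
  · have h1 : Function.support f ∩ Ioi x = Ioi x := by
      ext t
      simp only [mem_inter_iff, Function.mem_support, mem_Ioi, and_iff_right_iff_imp]
      exact fun ht => (f_pos (hx.trans ht)).ne'
    rw [h1]
    simp
  · filter_upwards [ae_restrict_mem measurableSet_Ioi] with t ht
    exact (f_pos (hx.trans ht)).le

/-- The hazard rate `f / S` is strictly increasing. -/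
theorem hazard {x y : ℝ} (hx : 0 < x) (hxy : x < y) : f x * S y < f y * S x := by
  have hδ : 0 < y - x := by linarith
  have hdd : ∀ t ∈ Ici x, HasDerivAt (fun t => -S (t + (y - x))) (f (t + (y - x))) t := by
    intro t ht
    have ht' : x ≤ t := ht
    have := ((hasDerivAt_S (t := t + (y - x)) (by linarith)).comp_add_const t (y - x)).neg
    rwa [neg_neg] at this
  have hnn : ∀ t ∈ Ioi x, 0 ≤ f (t + (y - x)) := by
    intro t ht
    have ht' : x < t := ht
    exact (f_pos (by linarith)).le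
  have hlim : Tendsto (fun t => -S (t + (y - x))) atTop (𝓝 0) := by
    have := (S_tendsto.comp (tendsto_atTop_add_const_right atTop (y - x) tendsto_id)).neg
    simpa using this
  have h1 : S y = ∫ t in Ioi x, f (t + (y - x)) := by
    rw [integral_Ioi_of_hasDerivAt_of_nonneg' hdd hnn hlim]
    have h5 : x + (y - x) = y := by ring
    rw [h5]
    ring
  have hi : IntegrableOn (fun t => f (t + (y - x))) (Ioi x) :=
    integrableOn_Ioi_deriv_of_nonneg' hdd hnn hlim
  have h2 : 0 < ∫ t in Ioi x, (f y * f t - f x * f (t + (y - x))) := by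
    rw [setIntegral_pos_iff_support_of_nonneg_ae]
    · have h3 : Function.support (fun t => f y * f t - f x * f (t + (y - x))) ∩ Ioi x = Ioi x := by
        ext t
        simp only [mem_inter_iff, Function.mem_support, mem_Ioi, and_iff_right_iff_imp]
        intro ht
        have h4 := f_pf hx ht hδ
        have h5 : x + (y - x) = y := by ring
        rw [h5] at h4
        exact (sub_pos.2 h4).ne'
      rw [h3]
      simp
    · filter_upwards [ae_restrict_mem measurableSet_Ioi] with t ht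
      have h4 := f_pf hx ht hδ
      have h5 : x + (y - x) = y := by ring
      rw [h5] at h4
      exact (sub_pos.2 h4).le
    · exact ((integrable_f hx).const_mul _).sub (hi.const_mul _)
  rw [integral_sub ((integrable_f hx).const_mul _) (hi.const_mul _), integral_const_mul,
    integral_const_mul, integral_f hx, ← h1] at h2
  linarith

/-- **The logarithm of the survival function is strictly concave.** -/
theorem strictConcave_log_S : StrictConcaveOn ℝ (Ioi 0) fun t => Real.log (S t) := by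
  have hd : ∀ t : ℝ, 0 < t → HasDerivAt (fun t => Real.log (S t)) (-f t / S t) t :=
    fun t ht => (hasDerivAt_S ht).log (S_pos ht).ne'
  apply StrictAntiOn.strictConcaveOn_of_deriv (convex_Ioi 0)
  · exact fun t ht => (hd t ht).continuousAt.continuousWithinAt
  · rw [interior_Ioi]
    intro x hx y hy hxy
    rw [(hd x hx).deriv, (hd y hy).deriv, neg_div, neg_div]
    apply neg_lt_neg
    rw [div_lt_div_iff₀ (S_pos hx) (S_pos hy)]
    exact hazard hx hxy

end Pool.Agent.Q333.Exit
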