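import Pool.Agent.Q333.Exit.BM2
import Pool.Agent.Q333.Exit.Ser

/-!
# The law of the exit time of Brownian motion from an interval
-/

set_option autoImplicit false

namespace Pool.Agent.Q333.Exit

open Filter Topology Set MeasureTheory ProbabilityTheory
open scoped NNReal ENNReal

/-- `∑ cos(2πnx)/n² = π²(x² - x + 1/6)` -/
theorem hasSum_cos {x : ℝ} (hx : x ∈ Icc (0 : ℝ) 1) :
    HasSum (fun n : ℕ => 1 / (n : ℝ) ^ 2 * Real.cos (2 * Real.pi * n * x))
      (Real.pi ^ 2 * (x ^ 2 - x + 6⁻¹)) := by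
  have h := hasSum_one_div_nat_pow_mul_cos one_ne_zero hx
  have e : (Polynomial.map (algebraMap ℚ ℝ) (Polynomial.bernoulli (2 * 1))).eval x =
      x ^ 2 - x + 6⁻¹ := bernoulliFun_two x
  rw [e] at h
  simp only [mul_one] at h
  have e2 : (-1 : ℝ) ^ (1 + 1) * (2 * Real.pi) ^ 2 / 2 / ((2 : ℕ).factorial : ℝ) = Real.pi ^ 2 := by
    norm_num [Nat.factorial]
    ring
  rw [e2] at h
  exact h

/-- the triangle wave -/
theorem hasSum_tri {x : ℝ} (h0 : 0 ≤ x) (h1 : x ≤ 1 / 2) :
    HasSum (fun n : ℕ => 8 / (Real.pi ^ 2 * (2 * n + 1) ^ 2) *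
      Real.cos (2 * Real.pi * (2 * n + 1) * x)) (1 - 4 * x) := by
  set g : ℕ → ℝ := fun n => 1 / (n : ℝ) ^ 2 * Real.cos (2 * Real.pi * n * x) with hg
  have ht : HasSum g (Real.pi ^ 2 * (x ^ 2 - x + 6⁻¹)) := hasSum_cos ⟨h0, by linarith⟩
  have he : HasSum (fun k => g (2 * k)) (Real.pi ^ 2 * ((2 * x) ^ 2 - 2 * x + 6⁻¹) / 4) := by
    have h2 := (hasSum_cos (x := 2 * x) ⟨by linarith, by linarith⟩).div_const 4
    refine h2.congr_fun ?_
    intro k
    simp only [hg]
    push_cast
    rw [show 2 * Real.pi * (2 * (k : ℝ)) * x = 2 * Real.pi * k * (2 * x) by ring]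
    ring
  have hos : Summable fun k => g (2 * k + 1) :=
    ht.summable.comp_injective (i := fun k : ℕ => 2 * k + 1) (fun a b h => by
      simp only at h
      omega)
  have hall := he.even_add_odd hos.hasSum
  have hv := hall.unique ht
  have hval : ∑' k, g (2 * k + 1) = Real.pi ^ 2 / 8 * (1 - 4 * x) := by
    linear_combination hv
  have hfin := hos.hasSum.mul_left (8 / Real.pi ^ 2)
  rw [hval] at hfin
  have hpi := Real.pi_ne_zero
  have e : 8 / Real.pi ^ 2 * (Real.pi ^ 2 / 8 * (1 - 4 * x)) = 1 - 4 * x := by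
    field_simp
  rw [e] at hfin
  refine hfin.congr_fun ?_
  intro k
  simp only [hg]
  push_cast
  have h3 : (2 * (k : ℝ) + 1) ≠ 0 := by positivity
  field_simp

/-- the frequencies -/
noncomputable def mu (a : ℝ) (n : ℕ) : ℝ := (2 * n + 1) * Real.pi / (2 * a)

theorem mu_pos {a : ℝ} (ha : 0 < a) (n : ℕ) : 0 < mu a n := by
  unfold mu
  positivity

theorem mu_a {a : ℝ} (ha : 0 < a) (n : ℕ) : mu a n * a = n * Real.pi + Real.pi / 2 := by
  unfold mu
  field_simp

theorem cos_mu {a : ℝ} (ha : 0 < a) (n : ℕ) : Real.cos (mu a n * a) = 0 := by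
  rw [mu_a ha, Real.cos_add_pi_div_two, Real.sin_nat_mul_pi, neg_zero]

theorem cos_mu_sub {a : ℝ} (ha : 0 < a) (n : ℕ) (e : ℝ) :
    Real.cos (mu a n * (a - e)) = (-1) ^ n * Real.sin (mu a n * e) := by
  rw [mul_sub, mu_a ha, show (n : ℝ) * Real.pi + Real.pi / 2 - mu a n * e =
    Real.pi / 2 - mu a n * e + n * Real.pi by ring, Real.cos_add_nat_mul_pi,
    Real.cos_pi_div_two_sub]

theorem hasSum_tri' {a : ℝ} (ha : 0 < a) {y : ℝ} (hy : |y| ≤ 2 * a) :
    HasSum (fun n : ℕ => 8 / (Real.pi ^ 2 * (2 * n + 1) ^ 2) * Real.cos (mu a n * y))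
      (1 - |y| / a) := by
  have h := hasSum_tri (x := |y| / (4 * a)) (by positivity)
    (by rw [div_le_iff₀ (by positivity)]; linarith)
  have e : 1 - 4 * (|y| / (4 * a)) = 1 - |y| / a := by field_simp
  rw [e] at h
  refine h.congr_fun fun n => ?_
  congr 1
  rw [← Real.cos_abs (mu a n * y), abs_mul, abs_of_pos (mu_pos ha n)]
  congr 1
  unfold mu
  field_simp
  ring

/-- the trapezoid -/
noncomputable def tz (a e x : ℝ) : ℝ :=
  a / (2 * e) * ((1 - |a - e - x| / a) + (1 - |a - e + x| / a))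

theorem tz_eq {a e x : ℝ} (ha : 0 < a) (he : 0 < e) :
    tz a e x = (2 * a - (|a - e - x| + |a - e + x|)) / (2 * e) := by
  unfold tz
  field_simp
  ring

theorem tz_one {a e x : ℝ} (ha : 0 < a) (he : 0 < e) (hx : |x| ≤ a - e) : tz a e x = 1 := by
  have h1 := abs_le.1 hx
  rw [tz_eq ha he, abs_of_nonneg (by linarith), abs_of_nonneg (by linarith)]
  field_simp
  ring

theorem tz_abs {a e x : ℝ} (ha : 0 < a) (he : 0 < e) (hea : e ≤ a) (hx : |x| ≤ a) :
    |tz a e x| ≤ 1 := by
  rw [tz_eq ha he, abs_le]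
  have h1 := abs_le.1 hx
  constructor
  · rw [le_div_iff₀ (by positivity)]
    have h2 : |a - e - x| + |a - e + x| ≤ 2 * a := by
      rcases abs_cases (a - e - x) with h | h <;> rcases abs_cases (a - e + x) with h' | h' <;>
        linarith
    nlinarith
  · rw [div_le_iff₀ (by positivity)]
    have h2 : 2 * (a - e) ≤ |a - e - x| + |a - e + x| := by
      have := le_abs_self (a - e - x)
      have := le_abs_self (a - e + x)
      linarith
    linarith

/-- the coefficients of the trapezoid -/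
noncomputable def cf (a e : ℝ) (n : ℕ) : ℝ :=
  8 * a / (e * Real.pi ^ 2 * (2 * n + 1) ^ 2) * ((-1) ^ n * Real.sin (mu a n * e))

theorem hasSum_tz {a e x : ℝ} (ha : 0 < a) (he : 0 < e) (hea : e ≤ a) (hx : |x| ≤ a) :
    HasSum (fun n : ℕ => cf a e n * Real.cos (mu a n * x)) (tz a e x) := by
  have h1 := abs_le.1 hx
  have ha1 : |a - e - x| ≤ 2 * a := abs_le.2 ⟨by linarith, by linarith⟩
  have ha2 : |a - e + x| ≤ 2 * a := abs_le.2 ⟨by linarith, by linarith⟩
  have h2 := ((hasSum_tri' ha ha1).add (hasSum_tri' ha ha2)).mul_left (a / (2 * e))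
  refine h2.congr_fun fun n => ?_
  rw [← mul_add]
  have h3 : Real.cos (mu a n * (a - e - x)) + Real.cos (mu a n * (a - e + x)) =
      2 * (((-1) ^ n * Real.sin (mu a n * e)) * Real.cos (mu a n * x)) := by
    rw [← cos_mu_sub ha n e, mul_sub, mul_add, Real.cos_sub, Real.cos_add]
    ring
  rw [h3, cf]
  have h4 : (2 * (n : ℝ) + 1) ≠ 0 := by positivity
  have h5 := Real.pi_ne_zero
  field_simp

theorem cf_abs {a e : ℝ} (ha : 0 < a) (he : 0 < e) (n : ℕ) :
    |cf a e n| ≤ 8 * a / (e * Real.pi ^ 2) * (1 / (2 * (n : ℝ) + 1) ^ 2) := by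
  unfold cf
  rw [abs_mul, abs_alt, abs_of_pos (by positivity)]
  have h1 := Real.abs_sin_le_one (mu a n * e)
  have h2 : 0 < 8 * a / (e * Real.pi ^ 2 * (2 * (n : ℝ) + 1) ^ 2) := by positivity
  calc _ ≤ 8 * a / (e * Real.pi ^ 2 * (2 * (n : ℝ) + 1) ^ 2) * 1 :=
        mul_le_mul_of_nonneg_left h1 h2.le
    _ = _ := by
      have h4 : (2 * (n : ℝ) + 1) ≠ 0 := by positivity
      have h5 := Real.pi_ne_zero
      field_simp

theorem cf_abs2 {a e : ℝ} (ha : 0 < a) (he : 0 < e) (n : ℕ) : |cf a e n| ≤ 2 := by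
  unfold cf
  rw [abs_mul, abs_alt, abs_of_pos (by positivity)]
  have h1 : |Real.sin (mu a n * e)| ≤ mu a n * e := by
    refine Real.abs_sin_le_abs.trans (le_of_eq ?_)
    rw [abs_of_pos (mul_pos (mu_pos ha n) he)]
  have h2 : 0 < 8 * a / (e * Real.pi ^ 2 * (2 * (n : ℝ) + 1) ^ 2) := by positivity
  calc _ ≤ 8 * a / (e * Real.pi ^ 2 * (2 * (n : ℝ) + 1) ^ 2) * (mu a n * e) :=
        mul_le_mul_of_nonneg_left h1 h2.le
    _ = 4 / (Real.pi * (2 * n + 1)) := by
      unfold mu
      have h4 : (2 * (n : ℝ) + 1) ≠ 0 := by positivity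
      have h5 := Real.pi_ne_zero
      field_simp
      ring
    _ ≤ 2 := by
      rw [div_le_iff₀ (by positivity)]
      have h1 := Real.pi_gt_three
      have h2 : (0 : ℝ) ≤ n := Nat.cast_nonneg n
      nlinarith

theorem cf_lim {a : ℝ} (ha : 0 < a) {e : ℕ → ℝ} (he : ∀ j, 0 < e j) (hlim : Tendsto e atTop (𝓝 0))
    (n : ℕ) : Tendsto (fun j => cf a (e j) n) atTop
      (𝓝 ((-1) ^ n * (4 / (Real.pi * (2 * n + 1))))) := by
  have h1 : HasDerivAt (fun s : ℝ => Real.sin (mu a n * s)) (mu a n) 0 := by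
    have h := ((hasDerivAt_id (0 : ℝ)).const_mul (mu a n)).sin
    simpa using h
  have h2 := h1.tendsto_slope_zero
  have h3 : Tendsto e atTop (𝓝[≠] 0) :=
    tendsto_nhdsWithin_iff.2 ⟨hlim, Eventually.of_forall fun j => (he j).ne'⟩
  have h4 := h2.comp h3
  have h5 := h4.const_mul (8 * a / (Real.pi ^ 2 * (2 * (n : ℝ) + 1) ^ 2) * (-1) ^ n)
  have e1 : 8 * a / (Real.pi ^ 2 * (2 * (n : ℝ) + 1) ^ 2) * (-1) ^ n * mu a n =
      (-1) ^ n * (4 / (Real.pi * (2 * n + 1))) := by
    unfold mu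
    have h4 : (2 * (n : ℝ) + 1) ≠ 0 := by positivity
    have h5 := Real.pi_ne_zero
    field_simp
    ring
  rw [e1] at h5
  refine h5.congr fun j => ?_
  simp only [Function.comp_apply, zero_add, mul_zero, Real.sin_zero, sub_zero, smul_eq_mul]
  unfold cf
  have h4 : (2 * (n : ℝ) + 1) ≠ 0 := by positivity
  have h5 := Real.pi_ne_zero
  have h6 := (he j).ne'
  field_simp

theorem summable_sq : Summable fun n : ℕ => 1 / (2 * (n : ℝ) + 1) ^ 2 := by
  have h : Summable fun n : ℕ => 1 / (n : ℝ) ^ 2 := Real.summable_one_div_nat_pow.2 one_lt_two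
  have h2 := h.comp_injective (i := fun k : ℕ => 2 * k + 1) (fun a b h => by
      simp only at h
      omega)
  refine h2.congr fun n => ?_
  simp only [Function.comp_apply]
  push_cast
  rfl

section law

variable {Ω : Type*} {mΩ : MeasurableSpace Ω} {P : Measure Ω} {B : ℝ≥0 → Ω → ℝ}

theorem good_abs {a : ℝ} {x : ℝ≥0 → ℝ} (ha : 0 < a) (hx : Continuous x) (h0 : x 0 = 0) {t : ℝ≥0}
    (h : Good a t x) : |x t| < a := (good_iff ha hx h0 t).1 h t (le_refl t)

theorem rt_mu {a : ℝ} (ha : 0 < a) (n : ℕ) (t : ℝ) :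
    mu a n ^ 2 / 2 * t = rt n * (t / a ^ 2) := by
  unfold mu rt
  field_simp
  ring

/-- the expectation of the trapezoid -/
theorem E_tz [IsProbabilityMeasure P] (hB : IsBrownianReal B P) {a : ℝ} (ha : 0 < a) {e : ℝ}
    (he : 0 < e) (hea : e ≤ a) (t : ℝ≥0) :
    ∫ ω, tz a e (B t ω) * ind B a t ω ∂P =
      ∑' n : ℕ, cf a e n * Real.exp (-(rt n) * ((t : ℝ) / a ^ 2)) := by
  have hF : ∀ n : ℕ, Integrable (fun ω => cf a e n * (Real.cos (mu a n * B t ω) * ind B a t ω)) P :=
    fun n => (int_cos_ind hB.toIsPreBrownianReal a (mu a n) t t).const_mul _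
  have h1 := integral_tsum_of_summable_integral_norm (μ := P)
    (F := fun (n : ℕ) ω => cf a e n * (Real.cos (mu a n * B t ω) * ind B a t ω)) hF (by
      refine Summable.of_nonneg_of_le (fun n => integral_nonneg fun ω => norm_nonneg _)
        (fun n => ?_) (summable_sq.mul_left (8 * a / (e * Real.pi ^ 2)))
      calc ∫ ω, ‖cf a e n * (Real.cos (mu a n * B t ω) * ind B a t ω)‖ ∂P
          ≤ ∫ _ω, 8 * a / (e * Real.pi ^ 2) * (1 / (2 * (n : ℝ) + 1) ^ 2) ∂P := by
            apply integral_mono (hF n).norm (integrable_const _)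
            intro ω
            show ‖cf a e n * (Real.cos (mu a n * B t ω) * ind B a t ω)‖ ≤ _
            rw [norm_mul, norm_mul, Real.norm_eq_abs, Real.norm_eq_abs, Real.norm_eq_abs]
            have h1 := Real.abs_cos_le_one (mu a n * B t ω)
            have h3 : |ind B a t ω| ≤ 1 := by
              rw [abs_of_nonneg (ind_nonneg a t ω)]; exact ind_le a t ω
            have h4 := mul_le_one₀ h1 (abs_nonneg _) h3
            have h5 := cf_abs ha he n
            calc |cf a e n| * (|Real.cos (mu a n * B t ω)| * |ind B a t ω|)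
                ≤ |cf a e n| * 1 := mul_le_mul_of_nonneg_left h4 (abs_nonneg _)
              _ ≤ _ := by rw [mul_one]; exact h5
        _ = _ := by simp)
  have h2 : (fun ω => ∑' n : ℕ, cf a e n * (Real.cos (mu a n * B t ω) * ind B a t ω)) =ᵐ[P]
      fun ω => tz a e (B t ω) * ind B a t ω := by
    filter_upwards [hB.cont, hB.eval_zero_ae_eq_zero] with ω hc h0
    by_cases hg : Good a t (B · ω)
    · have h3 := good_abs ha hc h0 hg
      have h4 := (hasSum_tz ha he hea h3.le).mul_right (ind B a t ω)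
      rw [← h4.tsum_eq]
      apply tsum_congr
      intro n
      ring
    · have e0 : ind B a t ω = 0 := indicator_of_notMem (by exact hg) _
      simp [e0]
  rw [← integral_congr_ae h2, ← h1]
  apply tsum_congr
  intro n
  rw [integral_const_mul]
  congr 1
  have h3 := Cm_eq hB ha (cos_mu ha n) t
  rw [Cm, rt_mu ha] at h3
  rw [h3, neg_mul]

/-- **The law of the exit time.** -/
theorem E_ind [IsProbabilityMeasure P] (hB : IsBrownianReal B P) {a : ℝ} (ha : 0 < a) {t : ℝ≥0}
    (ht : 0 < t) : ∫ ω, ind B a t ω ∂P = S ((t : ℝ) / a ^ 2) := by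
  set e : ℕ → ℝ := fun j => a / ((j : ℝ) + 1) with he
  have he0 : ∀ j, 0 < e j := fun j => by simp only [he]; positivity
  have hea : ∀ j, e j ≤ a := fun j => by
    simp only [he]
    rw [div_le_iff₀ (by positivity)]
    have : (0 : ℝ) ≤ j := Nat.cast_nonneg j
    nlinarith
  have hlim : Tendsto e atTop (𝓝 0) := by
    have h1 : Tendsto (fun j : ℕ => (j : ℝ) + 1) atTop atTop :=
      tendsto_atTop_add_const_right _ _ tendsto_natCast_atTop_atTop
    exact h1.const_div_atTop a
  have hL : Tendsto (fun j => ∫ ω, tz a (e j) (B t ω) * ind B a t ω ∂P) atTop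
      (𝓝 (∫ ω, ind B a t ω ∂P)) := by
    apply tendsto_integral_of_dominated_convergence (fun _ => (1 : ℝ))
    · intro j
      have h1 : Measurable fun x : ℝ => tz a (e j) x := by
        unfold tz
        fun_prop
      exact (h1.comp_aemeasurable (hB.aemeasurable t)).aestronglyMeasurable.mul
        (aesm_ind hB.toIsPreBrownianReal a t)
    · exact integrable_const _
    · intro j
      filter_upwards [hB.cont, hB.eval_zero_ae_eq_zero] with ω hc h0
      rw [Real.norm_eq_abs, abs_mul]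
      by_cases hg : Good a t (B · ω)
      · have h3 := good_abs ha hc h0 hg
        have h4 := tz_abs ha (he0 j) (hea j) h3.le
        have h5 : |ind B a t ω| ≤ 1 := by
          rw [abs_of_nonneg (ind_nonneg a t ω)]; exact ind_le a t ω
        exact mul_le_one₀ h4 (abs_nonneg _) h5
      · have e0 : ind B a t ω = 0 := indicator_of_notMem (by exact hg) _
        rw [e0]
        simp
    · filter_upwards [hB.cont, hB.eval_zero_ae_eq_zero] with ω hc h0
      by_cases hg : Good a t (B · ω)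
      · have h3 := good_abs ha hc h0 hg
        have h4 : ∀ᶠ j in atTop, e j < a - |B t ω| :=
          hlim.eventually (gt_mem_nhds (by linarith))
        apply tendsto_const_nhds.congr'
        filter_upwards [h4] with j hj
        rw [tz_one ha (he0 j) (by linarith), one_mul]
      · have e0 : ind B a t ω = 0 := indicator_of_notMem (by exact hg) _
        rw [e0]
        simp
  have hR : Tendsto (fun j => ∑' n : ℕ, cf a (e j) n * Real.exp (-(rt n) * ((t : ℝ) / a ^ 2)))
      atTop (𝓝 (S ((t : ℝ) / a ^ 2))) := by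
    have hta : (0 : ℝ) < (t : ℝ) / a ^ 2 := by
      have : (0 : ℝ) < t := by exact_mod_cast ht
      positivity
    apply tendsto_tsum_of_dominated_convergence (summable_lin hta 0 2)
    · intro n
      exact (cf_lim ha he0 hlim n).mul_const _
    · refine Eventually.of_forall fun j n => ?_
      rw [norm_mul, Real.norm_eq_abs, Real.norm_eq_abs, abs_of_pos (Real.exp_pos _)]
      apply mul_le_mul_of_nonneg_right _ (Real.exp_pos _).le
      have := cf_abs2 ha (he0 j) n
      linarith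
  have he' : ∀ j, ∫ ω, tz a (e j) (B t ω) * ind B a t ω ∂P =
      ∑' n : ℕ, cf a (e j) n * Real.exp (-(rt n) * ((t : ℝ) / a ^ 2)) :=
    fun j => E_tz hB ha (he0 j) (hea j) t
  simp_rw [he'] at hL
  exact tendsto_nhds_unique hL hR

theorem prob_Ev [IsProbabilityMeasure P] (hB : IsBrownianReal B P) {a : ℝ} (ha : 0 < a) {t : ℝ≥0}
    (ht : 0 < t) : P (Ev B a t) = ENNReal.ofReal (S ((t : ℝ) / a ^ 2)) := by
  have h1 := E_ind hB ha ht
  have h2 : ∫ ω, ind B a t ω ∂P = P.real (Ev B a t) := by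
    have : (fun ω => ind B a t ω) = (Ev B a t).indicator (fun _ => (1 : ℝ)) := rfl
    rw [this, integral_indicator₀ (nullMeas_Ev hB.toIsPreBrownianReal a t)]
    simp
  rw [h2] at h1
  rw [← h1, ofReal_measureReal]

end law

end Pool.Agent.Q333.Exit
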