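import Mathlib

/-!
# Brownian motion, exit times and boxes: definitions

`ProbabilityTheory.IsBrownianReal X P` is Mathlib's definition of a standard real Brownian motion
`X : ℝ≥0 → Ω → ℝ` started at `0`, with almost surely continuous paths.
-/

set_option autoImplicit false

namespace Pool.Agent.Q333.Exit

open Filter Topology Set MeasureTheory ProbabilityTheory
open scoped NNReal ENNReal

/-- The open box `R_a = {x : |x_k| < a_k}`. -/
def Box {d : ℕ} (a : Fin d → ℝ) : Set (Fin d → ℝ) := {x | ∀ k, |x k| < a k}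

/-- The exit time `τ_D = inf {t ≥ 0 : B_t ∉ D}` (infinite if there is no such `t`). -/
noncomputable def exitTime {d : ℕ} {Ω : Type*} (B : Fin d → ℝ≥0 → Ω → ℝ) (D : Set (Fin d → ℝ))
    (ω : Ω) : ℝ≥0∞ :=
  ⨅ (t : ℝ≥0) (_ : (fun k => B k t ω) ∉ D), (t : ℝ≥0∞)

/-- `B = (B_1, …, B_d)` is a standard Brownian motion in `ℝ^d` started at `0`: the coordinates are
independent standard Brownian motions. -/
structure IsBM {d : ℕ} {Ω : Type*} {mΩ : MeasurableSpace Ω} (B : Fin d → ℝ≥0 → Ω → ℝ)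
    (P : Measure Ω) : Prop where
  brownian : ∀ k, IsBrownianReal (B k) P
  indep : iIndepFun (fun k ω t => B k t ω) P

/-- `λ₁(R_a) = (π²/4) ∑ a_k⁻²`, the first Dirichlet eigenvalue of `-Δ` on `R_a` -/
noncomputable def lam {d : ℕ} (a : Fin d → ℝ) : ℝ := Real.pi ^ 2 / 4 * ∑ k, (a k ^ 2)⁻¹

end Pool.Agent.Q333.Exit
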