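import Pool.Agent.Q333.Exit.Ser

/-!
# Products of survival functions: Jensen's inequality and moments
-/

set_option autoImplicit false

namespace Pool.Agent.Q333.Exit

open Filter Topology Set MeasureTheory

theorem log_prod {d : ℕ} {y : Fin d → ℝ} (hy : ∀ k, 0 < y k) :
    Real.log (∏ k, S (y k)) = ∑ k, Real.log (S (y k)) :=
  Real.log_prod fun k _ => (S_pos (hy k)).ne'

theorem prod_le {d : ℕ} (hd : 0 < d) {y : Fin d → ℝ} (hy : ∀ k, 0 < y k) :
    ∏ k, S (y k) ≤ S ((∑ k, y k) / d) ^ d := by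
  have hd' : (0 : ℝ) < d := by exact_mod_cast hd
  have hne : (Finset.univ : Finset (Fin d)).Nonempty := ⟨⟨0, hd⟩, Finset.mem_univ _⟩
  have h := strictConcave_log_S.concaveOn.le_map_sum (t := Finset.univ) (w := fun _ : Fin d => 1 / (d : ℝ))
    (p := y) (fun k _ => by positivity) (by simp [hd'.ne']) (fun k _ => hy k)
  simp only [smul_eq_mul, ← Finset.mul_sum] at h
  have hs : 0 < ∑ k, y k := Finset.sum_pos (fun k _ => hy k) hne
  have e : 1 / (d : ℝ) * ∑ k, y k = (∑ k, y k) / d := by ring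
  rw [e] at h
  have hS : 0 < S ((∑ k, y k) / d) := S_pos (by positivity)
  rw [← Real.log_le_log_iff (Finset.prod_pos fun k _ => S_pos (hy k)) (pow_pos hS d), log_prod hy,
    Real.log_pow]
  have h2 : ∑ k, Real.log (S (y k)) = d * (1 / (d : ℝ) * ∑ k, Real.log (S (y k))) := by
    field_simp
  rw [h2]
  exact mul_le_mul_of_nonneg_left h hd'.le

theorem prod_lt {d : ℕ} (hd : 0 < d) {y : Fin d → ℝ} (hy : ∀ k, 0 < y k)
    (hne : ∃ j k, y j ≠ y k) :
    ∏ k, S (y k) < S ((∑ k, y k) / d) ^ d := by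
  have hd' : (0 : ℝ) < d := by exact_mod_cast hd
  have hne' : (Finset.univ : Finset (Fin d)).Nonempty := ⟨⟨0, hd⟩, Finset.mem_univ _⟩
  obtain ⟨j, k, hjk⟩ := hne
  have h := strictConcave_log_S.lt_map_sum (t := Finset.univ) (w := fun _ : Fin d => 1 / (d : ℝ))
    (p := y) (fun k _ => by positivity) (by simp [hd'.ne']) (fun k _ => hy k)
    ⟨j, Finset.mem_univ _, k, Finset.mem_univ _, hjk⟩
  simp only [smul_eq_mul, ← Finset.mul_sum] at h
  have hs : 0 < ∑ k, y k := Finset.sum_pos (fun k _ => hy k) hne'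
  have e : 1 / (d : ℝ) * ∑ k, y k = (∑ k, y k) / d := by ring
  rw [e] at h
  have hS : 0 < S ((∑ k, y k) / d) := S_pos (by positivity)
  rw [← Real.log_lt_log_iff (Finset.prod_pos fun k _ => S_pos (hy k)) (pow_pos hS d), log_prod hy,
    Real.log_pow]
  have h2 : ∑ k, Real.log (S (y k)) = d * (1 / (d : ℝ) * ∑ k, Real.log (S (y k))) := by
    field_simp
  rw [h2]
  exact mul_lt_mul_of_pos_left h hd'

/-- exponential bound -/
theorem S_le : ∃ C h : ℝ, 0 < C ∧ 0 < h ∧ ∀ t : ℝ, 0 < t → S t ≤ C * Real.exp (-h * t) := by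
  have h1 : (0 : ℝ) < 1 := one_pos
  have hf := f_pos h1
  have hS := S_pos h1
  refine ⟨S 1 * Real.exp (f 1 / S 1), f 1 / S 1, by positivity, by positivity, fun t ht => ?_⟩
  have hd : HasDerivAt (fun t => Real.log (S t)) (-f 1 / S 1) 1 :=
    (hasDerivAt_S h1).log hS.ne'
  have hc := strictConcave_log_S.concaveOn
  have key : Real.log (S t) ≤ Real.log (S 1) + (f 1 / S 1) * (1 - t) := by
    rcases lt_trichotomy t 1 with h | h | h
    · have h2 := hc.le_slope_of_hasDerivAt ht (show (1 : ℝ) ∈ Ioi 0 from h1) h hd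
      rw [slope_def_field, le_div_iff₀ (by linarith)] at h2
      have : -f 1 / S 1 * (1 - t) = -(f 1 / S 1 * (1 - t)) := by ring
      linarith
    · rw [h]; simp
    · have h2 := hc.slope_le_of_hasDerivAt (show (1 : ℝ) ∈ Ioi 0 from h1) ht h hd
      rw [slope_def_field, div_le_iff₀ (by linarith)] at h2
      have : -f 1 / S 1 * (t - 1) = f 1 / S 1 * (1 - t) := by ring
      linarith
  have h3 := Real.exp_le_exp.2 key
  rw [Real.exp_log (S_pos ht), Real.exp_add, Real.exp_log hS] at h3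
  refine h3.trans (le_of_eq ?_)
  rw [mul_assoc, ← Real.exp_add]
  congr 2
  ring

theorem continuousOn_S : ContinuousOn S (Ioi 0) :=
  fun _ ht => (hasDerivAt_S ht).continuousAt.continuousWithinAt

/-- integrability -/
theorem integrable_pow {d : ℕ} (hd : 0 < d) {c p : ℝ} (hc : 0 < c) (hp : 0 < p) :
    IntegrableOn (fun t : ℝ => t ^ (p - 1) * S (c * t) ^ d) (Ioi 0) := by
  obtain ⟨C, h, hC, hh, hS⟩ := S_le
  have hd' : (0 : ℝ) < d := by exact_mod_cast hd
  have h1 := integrableOn_rpow_mul_exp_neg_mul_rpow (p := 1) (s := p - 1) (b := d * h * c)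
    (by linarith) one_pos (by positivity)
  have h2 : IntegrableOn (fun t : ℝ => C ^ d * (t ^ (p - 1) * Real.exp (-(d * h * c) * t ^ (1 : ℝ))))
    (Ioi 0) := h1.const_mul _
  refine Integrable.mono' h2 ?_ ?_
  · apply ContinuousOn.aestronglyMeasurable _ measurableSet_Ioi
    apply ContinuousOn.mul
    · exact fun t ht => (Real.continuousAt_rpow_const t _ (Or.inl (ne_of_gt ht))).continuousWithinAt
    · apply ContinuousOn.pow
      exact continuousOn_S.comp (continuous_const.mul continuous_id).continuousOn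
        fun t ht => mul_pos hc ht
  · filter_upwards [ae_restrict_mem measurableSet_Ioi] with t ht
    have ht' : 0 < t := ht
    have h3 := S_pos (mul_pos hc ht')
    rw [Real.norm_eq_abs, abs_of_nonneg (by positivity), Real.rpow_one]
    have h4 : S (c * t) ^ d ≤ (C * Real.exp (-h * (c * t))) ^ d :=
      pow_le_pow_left₀ h3.le (hS _ (mul_pos hc ht')) d
    have h5 : (C * Real.exp (-h * (c * t))) ^ d = C ^ d * Real.exp (-(d * h * c) * t) := by
      rw [mul_pow, ← Real.exp_nat_mul]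
      congr 2
      ring
    rw [h5] at h4
    have h6 : 0 < t ^ (p - 1) := Real.rpow_pos_of_pos ht' _
    calc t ^ (p - 1) * S (c * t) ^ d ≤ t ^ (p - 1) * (C ^ d * Real.exp (-(d * h * c) * t)) :=
          mul_le_mul_of_nonneg_left h4 h6.le
      _ = _ := by ring

/-- the product -/
noncomputable def G {d : ℕ} (b : Fin d → ℝ) (t : ℝ) : ℝ := ∏ k, S (t * b k)

theorem G_nonneg {d : ℕ} {b : Fin d → ℝ} (hb : ∀ k, 0 < b k) {t : ℝ} (ht : 0 < t) : 0 < G b t :=
  Finset.prod_pos fun k _ => S_pos (mul_pos ht (hb k))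

theorem continuousOn_G {d : ℕ} {b : Fin d → ℝ} (hb : ∀ k, 0 < b k) :
    ContinuousOn (G b) (Ioi 0) := by
  unfold G
  apply continuousOn_finsetProd
  intro k _
  exact continuousOn_S.comp (continuous_id.mul continuous_const).continuousOn
    fun t ht => mul_pos ht (hb k)

theorem G_le {d : ℕ} (hd : 0 < d) {b : Fin d → ℝ} (hb : ∀ k, 0 < b k) {t : ℝ} (ht : 0 < t) :
    G b t ≤ S ((∑ k, b k) / d * t) ^ d := by
  have h := prod_le hd (y := fun k => t * b k) fun k => mul_pos ht (hb k)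
  rw [← Finset.mul_sum] at h
  have e : t * (∑ k, b k) / d = (∑ k, b k) / d * t := by ring
  rw [e] at h
  exact h

theorem G_lt {d : ℕ} (hd : 0 < d) {b : Fin d → ℝ} (hb : ∀ k, 0 < b k) (hne : ∃ j k, b j ≠ b k)
    {t : ℝ} (ht : 0 < t) : G b t < S ((∑ k, b k) / d * t) ^ d := by
  obtain ⟨j, k, hjk⟩ := hne
  have h := prod_lt hd (y := fun k => t * b k) (fun k => mul_pos ht (hb k))
    ⟨j, k, fun h => hjk (mul_left_cancel₀ ht.ne' h)⟩
  rw [← Finset.mul_sum] at h
  have e : t * (∑ k, b k) / d = (∑ k, b k) / d * t := by ring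
  rw [e] at h
  exact h

theorem integrable_G {d : ℕ} (hd : 0 < d) {b : Fin d → ℝ} (hb : ∀ k, 0 < b k) {p : ℝ} (hp : 0 < p) :
    IntegrableOn (fun t : ℝ => t ^ (p - 1) * G b t) (Ioi 0) := by
  have hne : (Finset.univ : Finset (Fin d)).Nonempty := ⟨⟨0, hd⟩, Finset.mem_univ _⟩
  have hs : 0 < ∑ k, b k := Finset.sum_pos (fun k _ => hb k) hne
  have hd' : (0 : ℝ) < d := by exact_mod_cast hd
  refine Integrable.mono' (integrable_pow hd (c := (∑ k, b k) / d) (by positivity) hp) ?_ ?_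
  · apply ContinuousOn.aestronglyMeasurable _ measurableSet_Ioi
    apply ContinuousOn.mul
    · exact fun t ht => (Real.continuousAt_rpow_const t _ (Or.inl (ne_of_gt ht))).continuousWithinAt
    · exact continuousOn_G hb
  · filter_upwards [ae_restrict_mem measurableSet_Ioi] with t ht
    have ht' : 0 < t := ht
    have h6 : 0 < t ^ (p - 1) := Real.rpow_pos_of_pos ht' _
    rw [Real.norm_eq_abs, abs_of_nonneg (mul_nonneg h6.le (G_nonneg hb ht').le)]
    exact mul_le_mul_of_nonneg_left (G_le hd hb ht') h6.le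

/-- the moment integral -/
noncomputable def M {d : ℕ} (b : Fin d → ℝ) (p : ℝ) : ℝ := ∫ t in Ioi (0 : ℝ), t ^ (p - 1) * G b t

theorem M_const {d : ℕ} {c : ℝ} (hc : 0 < c) (p : ℝ) :
    ∫ t in Ioi (0 : ℝ), t ^ (p - 1) * S (c * t) ^ d = c ^ (-p) * M (fun _ : Fin d => 1) p := by
  have h := integral_comp_mul_left_Ioi (fun t : ℝ => t ^ (p - 1) * S t ^ d) 0 hc
  rw [mul_zero] at h
  have h1 : ∀ t ∈ Ioi (0 : ℝ), (c * t) ^ (p - 1) * S (c * t) ^ d =
      c ^ (p - 1) * (t ^ (p - 1) * S (c * t) ^ d) := by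
    intro t ht
    rw [Real.mul_rpow hc.le (le_of_lt ht)]
    ring
  rw [setIntegral_congr_fun measurableSet_Ioi h1, integral_const_mul] at h
  have h2 : M (fun _ : Fin d => 1) p = ∫ t in Ioi (0 : ℝ), t ^ (p - 1) * S t ^ d := by
    unfold M G
    simp
  rw [h2]
  have h3 : 0 < c ^ (p - 1) := Real.rpow_pos_of_pos hc _
  have h4 : c ^ (-p) = c⁻¹ / c ^ (p - 1) := by
    rw [eq_div_iff h3.ne', ← Real.rpow_add hc, ← Real.rpow_neg_one]
    congr 1
    ring
  rw [h4, div_mul_eq_mul_div, eq_div_iff h3.ne', mul_comm, h, smul_eq_mul]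

theorem M_le {d : ℕ} (hd : 0 < d) {b : Fin d → ℝ} (hb : ∀ k, 0 < b k) {p : ℝ} (hp : 0 < p) :
    (∑ k, b k) ^ p * M b p ≤ (d : ℝ) ^ p * M (fun _ : Fin d => 1) p := by
  have hne : (Finset.univ : Finset (Fin d)).Nonempty := ⟨⟨0, hd⟩, Finset.mem_univ _⟩
  have hs : 0 < ∑ k, b k := Finset.sum_pos (fun k _ => hb k) hne
  have hd' : (0 : ℝ) < d := by exact_mod_cast hd
  have h1 : M b p ≤ ((∑ k, b k) / d) ^ (-p) * M (fun _ : Fin d => 1) p := by
    rw [← M_const (by positivity) p]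
    apply setIntegral_mono_on (integrable_G hd hb hp) (integrable_pow hd (by positivity) hp)
      measurableSet_Ioi
    intro t ht
    exact mul_le_mul_of_nonneg_left (G_le hd hb ht) (Real.rpow_pos_of_pos ht _).le
  have h2 : 0 < (∑ k, b k) ^ p := Real.rpow_pos_of_pos hs _
  have h3 : (∑ k, b k) ^ p * ((∑ k, b k) / d) ^ (-p) = (d : ℝ) ^ p := by
    rw [Real.rpow_neg (by positivity), Real.div_rpow hs.le hd'.le]
    field_simp
  calc (∑ k, b k) ^ p * M b p ≤ (∑ k, b k) ^ p *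
        (((∑ k, b k) / d) ^ (-p) * M (fun _ : Fin d => 1) p) := mul_le_mul_of_nonneg_left h1 h2.le
    _ = _ := by rw [← mul_assoc, h3]

theorem M_lt {d : ℕ} (hd : 0 < d) {b : Fin d → ℝ} (hb : ∀ k, 0 < b k) (hne : ∃ j k, b j ≠ b k)
    {p : ℝ} (hp : 0 < p) :
    (∑ k, b k) ^ p * M b p < (d : ℝ) ^ p * M (fun _ : Fin d => 1) p := by
  have hne' : (Finset.univ : Finset (Fin d)).Nonempty := ⟨⟨0, hd⟩, Finset.mem_univ _⟩
  have hs : 0 < ∑ k, b k := Finset.sum_pos (fun k _ => hb k) hne'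
  have hd' : (0 : ℝ) < d := by exact_mod_cast hd
  have hc : 0 < (∑ k, b k) / d := by positivity
  have h1 : M b p < ((∑ k, b k) / d) ^ (-p) * M (fun _ : Fin d => 1) p := by
    rw [← M_const hc p, ← sub_pos, M,
      ← integral_sub (integrable_pow hd hc hp) (integrable_G hd hb hp),
      setIntegral_pos_iff_support_of_nonneg_ae]
    · have h3 : Function.support (fun t : ℝ => t ^ (p - 1) * S ((∑ k, b k) / d * t) ^ d -
          t ^ (p - 1) * G b t) ∩ Ioi 0 = Ioi 0 := by
        ext t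
        simp only [mem_inter_iff, Function.mem_support, mem_Ioi, and_iff_right_iff_imp]
        intro ht
        have h4 := mul_lt_mul_of_pos_left (G_lt hd hb hne ht) (Real.rpow_pos_of_pos ht (p - 1))
        exact (sub_pos.2 h4).ne'
      rw [h3]
      simp
    · filter_upwards [ae_restrict_mem measurableSet_Ioi] with t ht
      have h4 := mul_lt_mul_of_pos_left (G_lt hd hb hne ht) (Real.rpow_pos_of_pos ht (p - 1))
      exact (sub_pos.2 h4).le
    · exact (integrable_pow hd hc hp).sub (integrable_G hd hb hp)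
  have h2 : 0 < (∑ k, b k) ^ p := Real.rpow_pos_of_pos hs _
  have h3 : (∑ k, b k) ^ p * ((∑ k, b k) / d) ^ (-p) = (d : ℝ) ^ p := by
    rw [Real.rpow_neg (by positivity), Real.div_rpow hs.le hd'.le]
    field_simp
  calc (∑ k, b k) ^ p * M b p < (∑ k, b k) ^ p *
        (((∑ k, b k) / d) ^ (-p) * M (fun _ : Fin d => 1) p) := mul_lt_mul_of_pos_left h1 h2
    _ = _ := by rw [← mul_assoc, h3]

theorem M_eq {d : ℕ} (hd : 0 < d) {b : Fin d → ℝ} (hb : ∀ k, 0 < b k) (he : ∀ j k, b j = b k)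
    {p : ℝ} : (∑ k, b k) ^ p * M b p = (d : ℝ) ^ p * M (fun _ : Fin d => 1) p := by
  have hd' : (0 : ℝ) < d := by exact_mod_cast hd
  obtain ⟨c, hc⟩ : ∃ c, ∀ k, b k = c := ⟨b ⟨0, hd⟩, fun k => he k _⟩
  have hc0 : 0 < c := by rw [← hc ⟨0, hd⟩]; exact hb _
  have e : M b p = ∫ t in Ioi (0 : ℝ), t ^ (p - 1) * S (c * t) ^ d := by
    unfold M G
    congr 1
    funext t
    simp [hc, mul_comm]
  rw [e, M_const hc0, Finset.sum_congr rfl fun k _ => hc k]
  simp only [Finset.sum_const, Finset.card_univ, Fintype.card_fin, nsmul_eq_mul]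
  rw [Real.mul_rpow hd'.le hc0.le, Real.rpow_neg hc0.le]
  have : c ^ p ≠ 0 := (Real.rpow_pos_of_pos hc0 _).ne'
  field_simp

end Pool.Agent.Q333.Exit
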