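import Pool.Agent.Q333.Exit.Defs
import Pool.Agent.Q333.Exit.BM3
import Pool.Agent.Q333.Exit.Mom

/-!
# Exit times of d-dimensional Brownian motion from boxes
-/

set_option autoImplicit false

namespace Pool.Agent.Q333.Exit

open Filter Topology Set MeasureTheory ProbabilityTheory
open scoped NNReal ENNReal

section det

variable {d : ℕ} {Ω : Type*} {B : Fin d → ℝ≥0 → Ω → ℝ}

/-- for continuous paths -/
theorem lt_exit_iff {a : Fin d → ℝ} {ω : Ω} (hc : ∀ k, Continuous (B k · ω)) (t : ℝ≥0) :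
    (t : ℝ≥0∞) < exitTime B (Box a) ω ↔ ∀ s ≤ t, ∀ k, |B k s ω| < a k := by
  constructor
  · intro h s hs k
    by_contra hcon
    have h1 : (fun k => B k s ω) ∉ Box a := fun hin => hcon (hin k)
    have h2 : exitTime B (Box a) ω ≤ s := iInf₂_le s h1
    exact absurd (h.trans_le h2) (not_lt.2 (by exact_mod_cast hs))
  · intro h
    have hopen : IsOpen {s : ℝ≥0 | ∀ k, |B k s ω| < a k} := by
      rw [ofPred_forall]
      exact isOpen_iInter_of_finite fun k =>
        isOpen_lt (continuous_abs.comp (hc k)) continuous_const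
    have hmem : t ∈ {s : ℝ≥0 | ∀ k, |B k s ω| < a k} := h t (le_refl t)
    obtain ⟨r, hr, hsub⟩ := exists_Ico_subset_of_mem_nhds (hopen.mem_nhds hmem) ⟨t + 1, by simp⟩
    have h1 : (r : ℝ≥0∞) ≤ exitTime B (Box a) ω := by
      refine le_iInf₂ fun s hs => ?_
      by_contra hcon
      have hsr : s < r := by
        rw [not_le] at hcon
        exact_mod_cast hcon
      apply hs
      rcases le_or_gt s t with h2 | h2
      · exact h s h2
      · exact hsub ⟨h2.le, hsr⟩
    exact lt_of_lt_of_le (by exact_mod_cast hr) h1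

theorem lt_exit_good {a : Fin d → ℝ} (ha : ∀ k, 0 < a k) {ω : Ω} (hc : ∀ k, Continuous (B k · ω))
    (h0 : ∀ k, B k 0 ω = 0) (t : ℝ≥0) :
    (t : ℝ≥0∞) < exitTime B (Box a) ω ↔ ∀ k, Good (a k) t (B k · ω) := by
  rw [lt_exit_iff hc]
  constructor
  · intro h k
    rw [good_iff (ha k) (hc k) (h0 k)]
    exact fun s hs => h s hs k
  · intro h s hs k
    exact (good_iff (ha k) (hc k) (h0 k) t).1 (h k) s hs

/-- the exit time as a supremum -/
theorem exit_eq_iSup {a : Fin d → ℝ} (ha : ∀ k, 0 < a k) {ω : Ω}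
    (hc : ∀ k, Continuous (B k · ω)) (h0 : ∀ k, B k 0 ω = 0) :
    exitTime B (Box a) ω =
      ⨆ n, (⋂ k, Ev (B k) (a k) (u n)).indicator (fun _ => (u n : ℝ≥0∞)) ω := by
  have hiff : ∀ n, ω ∈ (⋂ k, Ev (B k) (a k) (u n)) ↔ (u n : ℝ≥0∞) < exitTime B (Box a) ω := by
    intro n
    rw [lt_exit_good ha hc h0, mem_iInter]
    rfl
  apply le_antisymm
  · apply le_of_forall_lt
    intro c hcl
    obtain ⟨r, hcr, hrt⟩ := ENNReal.lt_iff_exists_nnreal_btwn.1 hcl
    obtain ⟨r', hrr', hr't⟩ := ENNReal.lt_iff_exists_nnreal_btwn.1 hrt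
    have hrr : r < r' := by exact_mod_cast hrr'
    obtain ⟨n, hn⟩ := (TopologicalSpace.denseRange_denseSeq ℝ≥0).exists_mem_open isOpen_Ioo
      (nonempty_Ioo.2 hrr)
    have hn1 : r < u n := hn.1
    have hn2 : u n < r' := hn.2
    have h1 : (u n : ℝ≥0∞) < exitTime B (Box a) ω :=
      lt_trans (by exact_mod_cast hn2) hr't
    have h2 : c < (u n : ℝ≥0∞) := hcr.trans (by exact_mod_cast hn1)
    refine h2.trans_le ?_
    refine le_trans (le_of_eq ?_) (le_iSup _ n)
    rw [indicator_of_mem ((hiff n).2 h1)]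
  · apply iSup_le
    intro n
    by_cases h : ω ∈ (⋂ k, Ev (B k) (a k) (u n))
    · rw [indicator_of_mem h]
      exact ((hiff n).1 h).le
    · rw [indicator_of_notMem h]
      exact bot_le

end det

section prob

variable {d : ℕ} {Ω : Type*} {mΩ : MeasurableSpace Ω} {P : Measure Ω}
  {B : Fin d → ℝ≥0 → Ω → ℝ}

theorem measurable_good (a : ℝ) (t : ℝ≥0) : MeasurableSet {x : ℝ≥0 → ℝ | Good a t x} := by
  unfold Good
  rw [ofPred_exists]
  refine MeasurableSet.iUnion fun m => ?_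
  rw [ofPred_forall]
  refine MeasurableSet.iInter fun n => ?_
  rw [ofPred_forall]
  refine MeasurableSet.iInter fun h => ?_
  exact measurableSet_le (by fun_prop) measurable_const

theorem ae_nice (hB : IsBM B P) :
    ∀ᵐ ω ∂P, (∀ k, Continuous (B k · ω)) ∧ ∀ k, B k 0 ω = 0 := by
  have h1 : ∀ᵐ ω ∂P, ∀ k, Continuous (B k · ω) := ae_all_iff.2 fun k => (hB.brownian k).cont
  have h2 : ∀ᵐ ω ∂P, ∀ k, B k 0 ω = 0 :=
    ae_all_iff.2 fun k => (hB.brownian k).eval_zero_ae_eq_zero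
  exact h1.and h2

theorem aemeasurable_exit (hB : IsBM B P) {a : Fin d → ℝ} (ha : ∀ k, 0 < a k) :
    AEMeasurable (exitTime B (Box a)) P := by
  have h1 : AEMeasurable (fun ω => ⨆ n, (⋂ k, Ev (B k) (a k) (u n)).indicator
      (fun _ => (u n : ℝ≥0∞)) ω) P := by
    apply AEMeasurable.iSup
    intro n
    apply aemeasurable_const.indicator₀
    exact NullMeasurableSet.iInter fun k => nullMeas_Ev (hB.brownian k).toIsPreBrownianReal _ _
  refine h1.congr ?_
  filter_upwards [ae_nice hB] with ω hω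
  exact (exit_eq_iSup ha hω.1 hω.2).symm

theorem prob_lt [IsProbabilityMeasure P] (hB : IsBM B P) {a : Fin d → ℝ} (ha : ∀ k, 0 < a k)
    {t : ℝ} (ht : 0 < t) :
    P {ω | ENNReal.ofReal t < exitTime B (Box a) ω} =
      ENNReal.ofReal (G (fun k => (a k ^ 2)⁻¹) t) := by
  set s : ℝ≥0 := t.toNNReal with hs
  have hst : (s : ℝ) = t := Real.coe_toNNReal t ht.le
  have hs0 : 0 < s := by
    rw [hs]
    exact Real.toNNReal_pos.2 ht
  have h1 : {ω | ENNReal.ofReal t < exitTime B (Box a) ω} =ᵐ[P]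
      (⋂ k ∈ (Finset.univ : Finset (Fin d)), (fun ω (t : ℝ≥0) => B k t ω) ⁻¹'
        {x : ℝ≥0 → ℝ | Good (a k) s x} : Set Ω) := by
    filter_upwards [ae_nice hB] with ω hω
    apply propext
    show (ENNReal.ofReal t < exitTime B (Box a) ω) ↔
      ω ∈ (⋂ k ∈ (Finset.univ : Finset (Fin d)), (fun ω (t : ℝ≥0) => B k t ω) ⁻¹'
        {x : ℝ≥0 → ℝ | Good (a k) s x} : Set Ω)
    rw [show ENNReal.ofReal t = (s : ℝ≥0∞) from rfl, lt_exit_good ha hω.1 hω.2]
    simp only [Finset.mem_univ, iInter_true, mem_iInter, mem_preimage]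
    rfl
  rw [measure_congr h1, hB.indep.measure_inter_preimage_eq_mul _
    (fun k _ => measurable_good (a k) s)]
  have h2 : ∀ k, P ((fun ω (t : ℝ≥0) => B k t ω) ⁻¹' {x : ℝ≥0 → ℝ | Good (a k) s x}) =
      ENNReal.ofReal (S (t * (a k ^ 2)⁻¹)) := by
    intro k
    have h3 := prob_Ev (hB.brownian k) (ha k) hs0
    rw [hst, div_eq_mul_inv] at h3
    exact h3
  simp_rw [h2]
  rw [← ENNReal.ofReal_prod_of_nonneg]
  · rfl
  · intro k _
    have : 0 < a k := ha k
    exact (S_pos (by positivity)).le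

theorem inv_pos' {a : Fin d → ℝ} (ha : ∀ k, 0 < a k) (k : Fin d) : 0 < (a k ^ 2)⁻¹ := by
  have := ha k
  positivity

theorem ae_finite [IsProbabilityMeasure P] (hd : 0 < d) (hB : IsBM B P) {a : Fin d → ℝ}
    (ha : ∀ k, 0 < a k) : ∀ᵐ ω ∂P, exitTime B (Box a) ω ≠ ∞ := by
  rw [ae_iff]
  simp only [not_not]
  have hb := inv_pos' ha
  have hne : (Finset.univ : Finset (Fin d)).Nonempty := ⟨⟨0, hd⟩, Finset.mem_univ _⟩
  have hd' : (0 : ℝ) < d := by exact_mod_cast hd
  have hs : 0 < ∑ k, (a k ^ 2)⁻¹ := Finset.sum_pos (fun k _ => hb k) hne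
  have hlim : Tendsto (fun t : ℝ => ENNReal.ofReal (S ((∑ k, (a k ^ 2)⁻¹) / d * t) ^ d)) atTop
      (𝓝 (ENNReal.ofReal (0 ^ d))) := by
    apply ENNReal.tendsto_ofReal
    apply Tendsto.pow
    apply S_tendsto.comp
    exact tendsto_id.const_mul_atTop (by positivity)
  rw [zero_pow hd.ne', ENNReal.ofReal_zero] at hlim
  apply le_antisymm _ bot_le
  apply ge_of_tendsto hlim
  filter_upwards [eventually_gt_atTop 0] with t ht
  calc P {ω | exitTime B (Box a) ω = ∞} ≤ P {ω | ENNReal.ofReal t < exitTime B (Box a) ω} := by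
        apply measure_mono
        intro ω hω
        show ENNReal.ofReal t < exitTime B (Box a) ω
        rw [show exitTime B (Box a) ω = ∞ from hω]
        exact ENNReal.ofReal_lt_top
    _ = ENNReal.ofReal (G (fun k => (a k ^ 2)⁻¹) t) := prob_lt hB ha ht
    _ ≤ _ := ENNReal.ofReal_le_ofReal (G_le hd hb ht)

/-- **Moments of the exit time.** -/
theorem moment [IsProbabilityMeasure P] (hd : 0 < d) (hB : IsBM B P) {a : Fin d → ℝ}
    (ha : ∀ k, 0 < a k) {p : ℝ} (hp : 0 < p) :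
    ∫⁻ ω, exitTime B (Box a) ω ^ p ∂P = ENNReal.ofReal (p * M (fun k => (a k ^ 2)⁻¹) p) := by
  have hfin := ae_finite hd hB ha
  have hb := inv_pos' ha
  have h1 : ∫⁻ ω, exitTime B (Box a) ω ^ p ∂P =
      ∫⁻ ω, ENNReal.ofReal ((exitTime B (Box a) ω).toReal ^ p) ∂P := by
    apply lintegral_congr_ae
    filter_upwards [hfin] with ω hω
    rw [← ENNReal.ofReal_rpow_of_nonneg ENNReal.toReal_nonneg hp.le, ENNReal.ofReal_toReal hω]
  rw [h1, lintegral_rpow_eq_lintegral_meas_lt_mul P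
    (Eventually.of_forall fun ω => ENNReal.toReal_nonneg) (aemeasurable_exit hB ha).ennreal_toReal hp,
    ENNReal.ofReal_mul hp.le]
  congr 1
  rw [M, ofReal_integral_eq_lintegral_ofReal (integrable_G hd hb hp)]
  · apply setLIntegral_congr_fun measurableSet_Ioi
    intro t ht
    have ht' : 0 < t := ht
    have h2 : P {ω | t < (exitTime B (Box a) ω).toReal} =
        P {ω | ENNReal.ofReal t < exitTime B (Box a) ω} := by
      apply measure_congr
      filter_upwards [hfin] with ω hω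
      apply propext
      show t < (exitTime B (Box a) ω).toReal ↔ ENNReal.ofReal t < exitTime B (Box a) ω
      rw [ENNReal.ofReal_lt_iff_lt_toReal ht'.le hω]
    simp only []
    rw [h2, prob_lt hB ha ht', mul_comm, ← ENNReal.ofReal_mul (Real.rpow_pos_of_pos ht' _).le]
  · filter_upwards [ae_restrict_mem measurableSet_Ioi] with t ht
    exact mul_nonneg (Real.rpow_pos_of_pos ht _).le (G_nonneg hb ht).le

end prob

end Pool.Agent.Q333.Exit
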